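import Pool.Agent.H370.XT.Mem

/-! Level coordinates and the recurrence of the symbols. -/

set_option autoImplicit false

namespace Pool.Agent.H370.XT

open Polynomial Module Pool.Agent.Helper9.TD Pool.Agent.R841.TD

variable {K : Type*} [Field K] {V : Type*} [AddCommGroup V] [Module K V]

/-- coordinates with respect to the string decomposition -/
structure Coord (A : Module.End K V) (d : ℕ) (a : ℕ → K) (P Q : ℕ → Module.End K V)
    (c : ∀ l, ℕ → (V →ₗ[K] LW d P Q l)) : Prop where
  eq : ∀ l t j s, 2 * j + s ≤ d → ∀ q ∈ LW d P Q j,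
    (c l t (aeval A (str a j s) q) : V) = if j = l ∧ s = t then q else 0

/-- the coordinate in the `l`-th string at level `m` -/
noncomputable def cc {d : ℕ} {P Q : ℕ → Module.End K V} (c : ∀ l, ℕ → (V →ₗ[K] LW d P Q l))
    (l m : ℕ) : V →ₗ[K] LW d P Q l := if l ≤ m then c l (m - l) else 0

variable {A B : Module.End K V} {d : ℕ} {a b : ℕ → K} {P Q : ℕ → Module.End K V}
  {X : Module.End K V} {c : ∀ l, ℕ → (V →ₗ[K] LW d P Q l)}

theorem Sys.exists_Coord (h : Sys A B d a P d b Q) :
    ∃ c : ∀ l, ℕ → (V →ₗ[K] LW d P Q l), Coord A d a P Q c := by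
  choose c hc using fun l t => Sys.exists_coord h l t
  exact ⟨c, ⟨fun l t j s hjs q hq => hc l t j s hjs q hq⟩⟩

/-- coordinates of an element of `U_i` -/
theorem Coord.U (hc : Coord A d a P Q c) (i : ℕ) (q : ℕ → V) (hq : ∀ j, q j ∈ LW d P Q j)
    (l m : ℕ) (hlm : l + m ≤ d) :
    (cc c l m (∑ j ∈ (Finset.range (i + 1)).filter (fun j => i + j ≤ d),
      aeval A (str a j (i - j)) (q j)) : V) = if l ≤ m ∧ m = i then q l else 0 := by
  unfold cc
  by_cases hl : l ≤ m
  · rw [if_pos hl, map_sum, Submodule.coe_sum]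
    by_cases hm : m = i
    · subst hm
      rw [if_pos ⟨hl, rfl⟩, Finset.sum_eq_single l]
      · rw [hc.eq l (m - l) l (m - l) (by omega) _ (hq l), if_pos ⟨rfl, rfl⟩]
      · intro j hj hjl
        rw [Finset.mem_filter, Finset.mem_range] at hj
        rw [hc.eq l (m - l) j (m - j) (by omega) _ (hq j), if_neg (by omega)]
      · intro hj
        exfalso
        apply hj
        rw [Finset.mem_filter, Finset.mem_range]
        omega
    · rw [if_neg (by omega)]
      refine Finset.sum_eq_zero fun j hj => ?_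
      rw [Finset.mem_filter, Finset.mem_range] at hj
      rw [hc.eq l (m - l) j (i - j) (by omega) _ (hq j), if_neg (by omega)]
  · rw [if_neg hl, if_neg (by omega)]
    rfl

/-- (F1) -/
theorem Coord.F1 (h : Sys A B d a P d b Q) (hc : Coord A d a P Q c) (i : ℕ) : i ≤ d → ∀ v : V,
    (∀ k ≤ d, i < k → Q k v = 0) → ∀ l m, l + m ≤ d → i < m → cc c l m v = 0 := by
  have hU : ∀ i ≤ d, ∀ v ∈ NN d P d Q i i, ∀ l m, l + m ≤ d → i < m → cc c l m v = 0 := by
    intro i hi v hv l m hlm him
    obtain ⟨q, hq, hqe⟩ := Sys.gen h i hi v hv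
    refine Subtype.ext ?_
    rw [hqe, hc.U i q hq l m hlm, if_neg (by omega)]
    rfl
  induction i with
  | zero =>
    intro hi v hv
    exact hU 0 hi v (mem_NN.mpr ⟨hv, fun k _ hk => by omega⟩)
  | succ i ih =>
    intro hi v hv l m hlm him
    obtain ⟨u, w, huw, hu, hw⟩ := Sys.split h i v
    have hw' : w ∈ NN d P d Q (i + 1) (i + 1) := by
      refine mem_NN.mpr ⟨fun l hl hil => ?_, hw⟩
      have : w = v - u := by rw [huw]; abel
      rw [this, map_sub, hv l hl hil, hu l hl (by omega), sub_zero]
    rw [huw, map_add, ih (by omega) u hu l m hlm (by omega), hU (i + 1) hi w hw' l m hlm him,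
      add_zero]

/-- an element of the flag is the sum of a smaller one and of one of `U_i` -/
theorem Sys.flag_split (h : Sys A B d a P d b Q) (i : ℕ) (hi : i ≤ d) (v : V)
    (hv : ∀ k ≤ d, i < k → Q k v = 0) : ∃ u : V, ∃ q : ℕ → V, (∀ j, q j ∈ LW d P Q j) ∧
      v = u + ∑ j ∈ (Finset.range (i + 1)).filter (fun j => i + j ≤ d),
        aeval A (str a j (i - j)) (q j) ∧
      (∀ k ≤ d, i ≤ k → Q k u = 0) := by
  rcases i with _ | i
  · obtain ⟨q, hq, hqe⟩ := Sys.gen h 0 hi v (mem_NN.mpr ⟨hv, fun k _ hk => by omega⟩)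
    exact ⟨0, q, hq, by rw [zero_add]; exact hqe, fun k _ _ => map_zero _⟩
  · obtain ⟨u, w, huw, hu, hw⟩ := Sys.split h i v
    have hw' : w ∈ NN d P d Q (i + 1) (i + 1) := by
      refine mem_NN.mpr ⟨fun l hl hil => ?_, hw⟩
      have : w = v - u := by rw [huw]; abel
      rw [this, map_sub, hv l hl hil, hu l hl (by omega), sub_zero]
    obtain ⟨q, hq, hqe⟩ := Sys.gen h (i + 1) hi w hw'
    exact ⟨u, q, hq, by rw [← hqe]; exact huw, fun k hk hik => hu k hk (by omega)⟩

/-- (F1), in the form of a strict inequality on the flag -/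
theorem Coord.F1' (h : Sys A B d a P d b Q) (hc : Coord A d a P Q c) (m : ℕ) (v : V)
    (hv : ∀ k ≤ d, m ≤ k → Q k v = 0) (l : ℕ) (hlm : l + m ≤ d) : cc c l m v = 0 := by
  rcases m with _ | m
  · have : v = 0 := h.iB.eq_zero v fun k hk => hv k hk (Nat.zero_le _)
    rw [this, map_zero]
  · exact hc.F1 h m (by omega) v (fun k hk hmk => hv k hk (by omega)) l (m + 1) hlm (by omega)

/-- (F2) -/
theorem Coord.F2 (h : Sys A B d a P d b Q) (hc : Coord A d a P Q c) (i : ℕ) (hi : i ≤ d) (v : V)
    (hv : ∀ k ≤ d, i < k → Q k v = 0) (hz : ∀ l, l + i ≤ d → cc c l i v = 0) :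
    ∀ k ≤ d, i ≤ k → Q k v = 0 := by
  obtain ⟨u, q, hq, hvu, hu⟩ := Sys.flag_split h i hi v hv
  have hq0 : ∀ j ∈ (Finset.range (i + 1)).filter (fun j => i + j ≤ d), q j = 0 := by
    intro j hj
    rw [Finset.mem_filter, Finset.mem_range] at hj
    have h1 := hz j (by omega)
    rw [hvu, map_add, hc.F1' h i u hu j (by omega), zero_add] at h1
    have h2 := hc.U i q hq j i (by omega)
    rw [h1, if_pos ⟨by omega, rfl⟩] at h2
    exact h2.symm
  have h3 : v = u := by
    rw [hvu, Finset.sum_eq_zero, add_zero]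
    intro j hj
    rw [hq0 j hj, map_zero]
  rw [h3]
  exact hu

/-- multiplication by `A` shifts the level -/
theorem Coord.F3 (h : Sys A B d a P d b Q) (hc : Coord A d a P Q c) (m : ℕ) (v : V)
    (hv : ∀ k ≤ d, m < k → Q k v = 0) (l : ℕ) (hlm : l + m + 1 ≤ d) :
    cc c l (m + 1) (A v) = cc c l m v := by
  obtain ⟨u, q, hq, hvu, hu⟩ := Sys.flag_split h m (by omega) v hv
  have hAu : ∀ k ≤ d, m + 1 ≤ k → Q k (A u) = 0 := by
    intro k hk hmk
    rcases m with _ | m
    · have : u = 0 := h.iB.eq_zero u fun k hk => hu k hk (Nat.zero_le _)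
      rw [this, map_zero, map_zero]
    · exact up_lemma h.iB h.triB m u (fun l hl hml => hu l hl (by omega)) k hk (by omega)
  have e1 : cc c l (m + 1) (A u) = 0 := hc.F1' h (m + 1) _ hAu l (by omega)
  have e2 : cc c l m u = 0 := hc.F1' h m u hu l (by omega)
  -- the images of the members of the sum
  have e3 : ∀ j ∈ (Finset.range (m + 1)).filter (fun j => m + j ≤ d),
      cc c l (m + 1) (A (aeval A (str a j (m - j)) (q j))) =
        cc c l m (aeval A (str a j (m - j)) (q j)) := by
    intro j hj
    rw [Finset.mem_filter, Finset.mem_range] at hj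
    have f1 : A (aeval A (str a j (m - j)) (q j)) =
        aeval A (str a j (m - j + 1)) (q j) + a (j + (m - j)) • aeval A (str a j (m - j)) (q j) := by
      rw [str_succ, mul_comm, map_mul, Module.End.mul_apply]
      simp only [map_sub, aeval_X, aeval_C, LinearMap.sub_apply, Module.algebraMap_end_apply]
      abel
    have f2 : cc c l (m + 1) (aeval A (str a j (m - j)) (q j)) = 0 := by
      refine hc.F1 h m (by omega) _ (fun k hk hmk => ?_) l (m + 1) (by omega) (by omega)
      exact Q_str h.iB h.triB a j j _ (mem_LW.mp (hq j)).1 (m - j) k hk (by omega)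
    rw [f1, map_add, map_smul, f2, smul_zero, add_zero]
    refine Subtype.ext ?_
    unfold cc
    by_cases hl : l ≤ m
    · rw [if_pos hl, if_pos (by omega : l ≤ m + 1), hc.eq l (m - l) j (m - j) (by omega) _ (hq j)]
      by_cases hjd : 2 * j + (m - j + 1) ≤ d
      · rw [hc.eq l (m + 1 - l) j (m - j + 1) hjd _ (hq j)]
        by_cases hjl : j = l
        · subst hjl
          rw [if_pos ⟨rfl, by omega⟩, if_pos ⟨rfl, rfl⟩]
        · rw [if_neg (by omega), if_neg (by omega)]
      · have f3 : aeval A (str a j (m - j + 1)) (q j) = 0 := by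
          refine h.iA.eq_zero _ fun k hk => ?_
          rw [P_aeval h.iA k hk]
          by_cases hkj : k < j
          · rw [(mem_LW.mp (hq j)).2.1 k hk hkj, smul_zero]
          · by_cases hkj' : d - j < k
            · rw [LW_P (hq j) k hk hkj', smul_zero]
            · rw [str_eval, Finset.prod_eq_zero (i := k - j) (Finset.mem_range.mpr (by omega)),
                zero_smul]
              rw [show j + (k - j) = k by omega, sub_self]
        rw [f3, map_zero, if_neg (by omega)]
        rfl
    · rw [if_neg hl]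
      by_cases hl' : l ≤ m + 1
      · rw [if_pos hl']
        by_cases hjd : 2 * j + (m - j + 1) ≤ d
        · rw [hc.eq l (m + 1 - l) j (m - j + 1) hjd _ (hq j), if_neg (by omega)]
          rfl
        · have f3 : aeval A (str a j (m - j + 1)) (q j) = 0 := by
            refine h.iA.eq_zero _ fun k hk => ?_
            rw [P_aeval h.iA k hk]
            by_cases hkj : k < j
            · rw [(mem_LW.mp (hq j)).2.1 k hk hkj, smul_zero]
            · by_cases hkj' : d - j < k
              · rw [LW_P (hq j) k hk hkj', smul_zero]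
              · rw [str_eval, Finset.prod_eq_zero (i := k - j) (Finset.mem_range.mpr (by omega)),
                  zero_smul]
                rw [show j + (k - j) = k by omega, sub_self]
          rw [f3, map_zero]
          rfl
      · rw [if_neg hl']
        rfl
  rw [hvu, map_add, map_add, map_add, e1, e2, map_sum, map_sum, map_sum, Finset.sum_congr rfl e3]

/-- the cubic relation of a map which is tridiagonal on the eigenspaces of `A` -/
theorem cubic {β γ : K} {α : ℤ → K} (hα : Rec β γ α) (ha : ∀ i ≤ d, α i = a i)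
    (iA : Idem A d a P)
    (tri : ∀ i ≤ d, ∀ k ≤ d, (i + 1 < k ∨ k + 1 < i) → ∀ v, P k (X (P i v)) = 0) :
    ∃ ρ : K, ∀ v, A (A (A (X v))) - (β + 1) • A (A (X (A v))) + (β + 1) • A (X (A (A v))) -
      X (A (A (A v))) = γ • (A (A (X v)) - X (A (A v))) + ρ • (A (X v) - X (A v)) := by
  set ρ : K := α 0 ^ 2 - β * α 0 * α 1 + α 1 ^ 2 - γ * (α 0 + α 1) with hρ
  have hρi : ∀ i : ℕ, α i ^ 2 - β * α i * α (i + 1) + α (i + 1) ^ 2 - γ * (α i + α (i + 1)) = ρ := by
    intro i
    induction i with
    | zero => simp [hρ]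
    | succ i ih =>
      have h1 := hα ((i : ℤ) + 1)
      rw [show (i : ℤ) + 1 - 1 = i by ring, show (i : ℤ) + 1 + 1 = i + 2 by ring] at h1
      push_cast
      rw [show (i : ℤ) + 1 + 1 = i + 2 by ring]
      linear_combination ih + (α (i + 2) - α i) * h1
  refine ⟨ρ, fun v => ?_⟩
  -- it is enough to check this on eigenvectors
  have key : ∀ i ≤ d, ∀ w, A w = a i • w → P i w = w →
      A (A (A (X w))) - (β + 1) • A (A (X (A w))) + (β + 1) • A (X (A (A w))) -
      X (A (A (A w))) = γ • (A (A (X w)) - X (A (A w))) + ρ • (A (X w) - X (A w)) := by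
    intro i hi w hw hPw
    simp only [hw, map_smul]
    -- components of `X w`
    have hcomp : ∀ k ≤ d,
        ((a k - a i) * (a k ^ 2 - β * a k * a i + a i ^ 2 - γ * (a k + a i) - ρ)) •
        P k (X w) = 0 := by
      intro k hk
      by_cases hki : i + 1 < k ∨ k + 1 < i
      · rw [← hPw, tri i hi k hk hki, smul_zero]
      · have h0 : (a k - a i) * (a k ^ 2 - β * a k * a i + a i ^ 2 - γ * (a k + a i) - ρ) = 0 := by
          rcases (by omega : k = i ∨ k = i + 1 ∨ i = k + 1) with e | e | e
          · subst e; rw [sub_self, zero_mul]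
          · subst e
            have h1 := hρi i
            have h2 := ha i hi
            have h3 := ha (i + 1) hk
            push_cast at h3
            rw [h2, h3] at h1
            rw [mul_eq_zero]; right
            linear_combination h1
          · subst e
            have h1 := hρi k
            have h2 := ha k hk
            have h3 := ha (k + 1) hi
            push_cast at h3
            rw [h2, h3] at h1
            rw [mul_eq_zero]; right
            linear_combination h1
        rw [h0, zero_smul]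
    have hA : ∀ k ≤ d, ∀ u, P k (A u) = a k • P k u := fun k hk u => iA.comm k hk u
    rw [← sub_eq_zero]
    refine iA.eq_zero _ fun k hk => ?_
    simp only [map_sub, map_add, map_smul, hA k hk]
    have h1 := hcomp k hk
    rw [← h1]
    module
  rw [← iA.sum v]
  simp only [map_sum, Finset.smul_sum, ← Finset.sum_sub_distrib, ← Finset.sum_add_distrib]
  refine Finset.sum_congr rfl fun i hi => ?_
  have hi' : i ≤ d := by simpa [Nat.lt_succ_iff] using hi
  exact key i hi' (P i v) (iA.eig i hi' v) (by rw [iA.orth i hi' i hi', if_pos rfl])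

end Pool.Agent.H370.XT
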