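import Pool.Agent.H370.XT.Last

/-! The linear isomorphism and the dimensions. -/

set_option autoImplicit false

namespace Pool.Agent.H370.XT

open Polynomial Module Pool.Agent.Helper9.TD Pool.Agent.R841.TD

variable {K : Type*} [Field K] {V : Type*} [AddCommGroup V] [Module K V]

variable {A B : Module.End K V} {d : ℕ} {a b : ℕ → K} {P Q : ℕ → Module.End K V}
  {X : Module.End K V} {c : ∀ l, ℕ → (V →ₗ[K] LW d P Q l)}

theorem hV_mem (z : ∀ j, LW d P Q (j + 1) →ₗ[K] MV d P Q j) (j : ℕ) (q : LW d P Q j) :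
    hV z j q ∈ MV d P Q (j - 1) := by
  rcases j with _ | j
  · exact Submodule.zero_mem _
  · exact (z j q).2

theorem givenX_SX (h : Sys A B d a P d b Q) {β : K}
    (hrec : ∀ i, i + 3 ≤ d → a i - a (i + 3) = (β + 1) * (a (i + 1) - a (i + 2)))
    (p : ParX (LW d P Q) (MV d P Q) d) (hX : GivenX A d a β p X) : SX d P Q X := by
  refine FmlX.SX h β hrec _ _ _ _ ?_ ?_ ?_ ?_ ?_ ((givenX_iff β p).mp hX)
  · intro j q
    rcases j with _ | j
    · exact (xc p q).2
    · exact Submodule.zero_mem _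
  · intro j q; exact (xf p j q).2
  · intro j q; exact (xg p j q).2
  · intro j q; exact hV_mem _ j q
  · intro q; rfl

theorem exists_givenX' (h : Sys A B d a P d b Q) (β : K) (p : ParX (LW d P Q) (MV d P Q) d) :
    ∃ X, GivenX A d a β p X := by
  obtain ⟨X, hX⟩ := Sys.exists_FmlX h β (cV (xc p)) (fun j => (MV d P Q j).subtype ∘ₗ xf p j)
    (fun j => (MV d P Q (j + 1)).subtype ∘ₗ xg p j) (hV (xh p))
  exact ⟨X, (givenX_iff β p).mpr hX⟩

theorem givenX_ext (h : Sys A B d a P d b Q) {β : K} {p : ParX (LW d P Q) (MV d P Q) d}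
    {X X' : Module.End K V} (hX : GivenX A d a β p X) (hX' : GivenX A d a β p X') : X = X' :=
  FmlX.ext h ((givenX_iff β p).mp hX) ((givenX_iff β p).mp hX')

theorem exists_equivX (h : Sys A B d a P d b Q) (L M : ℕ → Submodule K V) (hL : L = LW d P Q)
    (hM : M = MV d P Q) (S : Submodule K (Module.End K V)) (hS : ∀ X, X ∈ S ↔ SX d P Q X) (β : K)
    (hrec : ∀ i, i + 3 ≤ d → a i - a (i + 3) = (β + 1) * (a (i + 1) - a (i + 2))) :
    ∃ e : ParX L M d ≃ₗ[K] S, ∀ p : ParX L M d, GivenX A d a β p (e p : Module.End K V) := by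
  subst hL
  subst hM
  have hex : ∀ p : ParX (LW d P Q) (MV d P Q) d, ∃ X : Module.End K V, X ∈ S ∧
      GivenX A d a β p X := by
    intro p
    obtain ⟨X, hX⟩ := exists_givenX' h β p
    exact ⟨X, (hS X).mpr (givenX_SX h hrec p hX), hX⟩
  choose F hFS hF using hex
  let φ : ParX (LW d P Q) (MV d P Q) d →ₗ[K] S :=
    { toFun := fun p => ⟨F p, hFS p⟩
      map_add' := fun p p' => Subtype.ext
        (givenX_ext h (hF (p + p')) (givenX_add (hF p) (hF p')))
      map_smul' := fun c p => Subtype.ext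
        (givenX_ext h (hF (c • p)) (givenX_smul c (hF p))) }
  have hbij : Function.Bijective φ := by
    constructor
    · rw [← LinearMap.ker_eq_bot, LinearMap.ker_eq_bot']
      intro p hp
      have h0 : F p = 0 := congrArg Subtype.val hp
      have h1 := hF p
      rw [h0] at h1
      exact givenX_unique h hrec p h1
    · rintro ⟨X, hX⟩
      obtain ⟨p, hp⟩ := exists_givenX h hrec ((hS X).mp hX)
      exact ⟨p, Subtype.ext (givenX_ext h (hF p) hp)⟩
  exact ⟨LinearEquiv.ofBijective φ hbij, fun p => hF p⟩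

theorem ParX_finrank [FiniteDimensional K V] (L M : ℕ → Submodule K V) (d : ℕ) :
    finrank K (ParX L M d) = finrank K (L 0) ^ 2 +
      ∑ j ∈ Finset.range ((d + 1) / 2), finrank K (L j) * finrank K (M j) +
      ∑ j ∈ Finset.range (d / 2), (finrank K (L j) * finrank K (M (j + 1)) +
        finrank K (L (j + 1)) * finrank K (M j)) := by
  rw [finrank_prod, finrank_prod, finrank_prod, finrank_pi_fintype, finrank_pi_fintype,
    finrank_pi_fintype]
  simp only [finrank_linearMap]
  rw [Finset.sum_add_distrib, Finset.sum_range fun j => finrank K (L j) * finrank K (M j),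
    Finset.sum_range fun j => finrank K (L j) * finrank K (M (j + 1)),
    Finset.sum_range fun j => finrank K (L (j + 1)) * finrank K (M j), sq, add_assoc]

/-! ### The spaces `M_j` -/

/-- the space `L_{j-1}` (zero for `j = 0`) -/
def LP (d : ℕ) (P Q : ℕ → Module.End K V) : ℕ → Submodule K V
  | 0 => ⊥
  | (j + 1) => LW d P Q j

theorem LP_eq (j : ℕ) (w : V) (hw : w ∈ LP d P Q j) : (j = 0 ∧ w = 0) ∨
    (1 ≤ j ∧ w ∈ LW d P Q (j - 1)) := by
  rcases j with _ | j
  · left; exact ⟨rfl, by simpa [LP] using hw⟩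
  · right; exact ⟨by omega, hw⟩

/-- the coordinates at level `j + 1` of an element of `M_j` -/
theorem cc_MV_low (h : Sys A B d a P d b Q) (hc : Coord A d a P Q c) (j : ℕ)
    (v : V) (hv : v ∈ MV d P Q j) (l : ℕ) (hl : l + 2 ≤ j) (hlj : l + (j + 1) ≤ d) :
    cc c l (j + 1) v = 0 := by
  rw [mem_MV] at hv
  by_cases hj : 2 * j ≤ d
  · have h1 := cc_str h hc l (j + 1) j v hv.1 (d - 2 * j + 1) (by omega)
    have h2 : aeval A (str a j (d - 2 * j + 1)) v = 0 := by
      refine h.iA.eq_zero _ fun k hk => ?_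
      rw [P_aeval h.iA k hk]
      by_cases hkj : k < j
      · rw [hv.2.1 k hk hkj, smul_zero]
      · by_cases hkd : d - j < k
        · have := hv.2.2 (d - k) (by omega) (by omega)
          rw [Nat.sub_sub_self hk] at this
          rw [this, smul_zero]
        · rw [str_eval, Finset.prod_eq_zero (i := k - j) (Finset.mem_range.mpr (by omega)),
            zero_smul]
          rw [show j + (k - j) = k by omega, sub_self]
    rw [h2, map_zero] at h1
    exact h1.symm
  · have h0 : v = 0 := by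
      refine h.iA.eq_zero _ fun k hk => ?_
      by_cases hkj : k < j
      · exact hv.2.1 k hk hkj
      · have := hv.2.2 (d - k) (by omega) (by omega)
        rwa [Nat.sub_sub_self hk] at this
    rw [h0, map_zero]

/-- the four coordinates at level `j + 1` -/
theorem cc_four (h : Sys A B d a P d b Q) (hc : Coord A d a P Q c) (j : ℕ)
    (w f g p : V) (hw : w ∈ LP d P Q j) (hf : f ∈ LW d P Q j) (hg : g ∈ LW d P Q j)
    (hp : p ∈ LW d P Q (j + 1)) (l : ℕ) (hlj : l + (j + 1) ≤ d) :
    (cc c l (j + 1) (quad A d a (j - 1) w + A f + g + p) : V) =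
      (if l + 1 = j then w else 0) + (if l = j then f else 0) + (if l = j + 1 then p else 0) := by
  rw [map_add, map_add, map_add, Submodule.coe_add, Submodule.coe_add, Submodule.coe_add]
  have e1 : (cc c l (j + 1) (quad A d a (j - 1) w) : V) = if l + 1 = j then w else 0 := by
    rcases LP_eq j w hw with ⟨h1, h2⟩ | ⟨h1, h2⟩
    · subst h2
      rw [map_zero, map_zero]
      split_ifs <;> rfl
    · have h3 := cc_quad h hc l (j - 1) (j - 1) w (mem_LW.mp h2).1 (by omega)
      rw [show j - 1 + 2 = j + 1 by omega] at h3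
      rw [h3, cc_base hc h l (j - 1) w h2 (by omega)]
      by_cases hl : l + 1 = j
      · rw [if_pos hl, if_pos (by omega)]
      · rw [if_neg hl, if_neg (by omega)]
  have e2 : (cc c l (j + 1) (A f) : V) = if l = j then f else 0 := by
    rw [hc.F3 h j f (mem_LW.mp hf).1 l (by omega), cc_base hc h l j f hf (by omega)]
  have e3 : (cc c l (j + 1) g : V) = 0 := by
    rw [hc.F1 h j (by omega) g (mem_LW.mp hg).1 l (j + 1) (by omega) (by omega)]
    rfl
  have e4 : (cc c l (j + 1) p : V) = if l = j + 1 then p else 0 :=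
    cc_base hc h l (j + 1) p hp hlj
  rw [e1, e2, e3, e4, add_zero]

theorem MV_four_mem (h : Sys A B d a P d b Q) (j : ℕ)
    (w f g p : V) (hw : w ∈ LP d P Q j) (hf : f ∈ LW d P Q j) (hg : g ∈ LW d P Q j)
    (hp : p ∈ LW d P Q (j + 1)) : quad A d a (j - 1) w + A f + g + p ∈ MV d P Q j := by
  refine Submodule.add_mem _ (Submodule.add_mem _ (Submodule.add_mem _ ?_ (A_mem h j f hf))
    (LW_le_MV j hg)) (LW_succ_le_MV j hp)
  rcases LP_eq j w hw with ⟨h1, h2⟩ | ⟨h1, h2⟩
  · rw [h2, map_zero]; exact Submodule.zero_mem _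
  · have := quad_mem h (j - 1) w h2
    rwa [show j - 1 + 1 = j by omega] at this

theorem MV_split (h : Sys A B d a P d b Q) (j : ℕ) (hj : 2 * j ≤ d) (v : V)
    (hv : v ∈ MV d P Q j) : ∃ w ∈ LP d P Q j, ∃ f ∈ LW d P Q j, ∃ g ∈ LW d P Q j,
      ∃ p ∈ LW d P Q (j + 1), v = quad A d a (j - 1) w + A f + g + p ∧
      (2 * j = d → f = 0 ∧ p = 0) := by
  obtain ⟨c, hc⟩ := Sys.exists_Coord h
  by_cases hjd : j + 1 ≤ d
  · obtain ⟨w, hw, hwe⟩ : ∃ w ∈ LP d P Q j, ∀ l, l + 1 = j → (cc c l (j + 1) v : V) = w := by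
      rcases j with _ | j
      · exact ⟨0, Submodule.zero_mem _, fun l hl => absurd hl (by omega)⟩
      · exact ⟨cc c j (j + 1 + 1) v, (cc c j (j + 1 + 1) v).2, fun l hl => by
          have : l = j := by omega
          rw [this]⟩
    obtain ⟨f, hf, hfe, hf0⟩ : ∃ f ∈ LW d P Q j, (2 * j < d → (cc c j (j + 1) v : V) = f) ∧
        (2 * j = d → f = 0) := by
      by_cases h2 : 2 * j < d
      · exact ⟨_, (cc c j (j + 1) v).2, fun _ => rfl, fun h => by omega⟩
      · exact ⟨0, Submodule.zero_mem _, fun h => absurd h h2, fun _ => rfl⟩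
    obtain ⟨p, hp, hpe, hp0⟩ : ∃ p ∈ LW d P Q (j + 1),
        (2 * j + 1 < d → (cc c (j + 1) (j + 1) v : V) = p) ∧ (2 * j = d → p = 0) := by
      by_cases h2 : 2 * j + 1 < d
      · exact ⟨_, (cc c (j + 1) (j + 1) v).2, fun _ => rfl, fun h => by omega⟩
      · exact ⟨0, Submodule.zero_mem _, fun h => absurd h h2, fun _ => rfl⟩
    have hm := MV_four_mem h j w f 0 p hw hf (Submodule.zero_mem _) hp
    set g : V := v - (quad A d a (j - 1) w + A f + 0 + p) with hg
    have hgM : g ∈ MV d P Q j := Submodule.sub_mem _ hv hm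
    have hgL : g ∈ LW d P Q j := by
      rw [mem_MV] at hgM
      rw [mem_LW]
      refine ⟨fun k hk hjk => ?_, hgM.2.1, hgM.2.2⟩
      refine hc.F2 h (j + 1) hjd g hgM.1 (fun l hl => ?_) k hk (by omega)
      refine Subtype.ext ?_
      rw [hg, map_sub, Submodule.coe_sub,
        cc_four h hc j w f 0 p hw hf (Submodule.zero_mem _) hp l hl]
      rcases (by omega : l + 2 ≤ j ∨ l + 1 = j ∨ l = j ∨ l = j + 1 ∨ j + 1 < l) with
        e | e | e | e | e
      · rw [cc_MV_low h hc j v hv l e hl, if_neg (by omega), if_neg (by omega),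
          if_neg (by omega)]
        simp
      · rw [hwe l e, if_pos e, if_neg (by omega), if_neg (by omega)]
        simp
      · subst e
        rw [hfe (by omega), if_neg (by omega), if_pos rfl, if_neg (by omega)]
        simp
      · subst e
        rw [hpe (by omega), if_neg (by omega), if_neg (by omega), if_pos rfl]
        simp
      · rw [if_neg (by omega), if_neg (by omega), if_neg (by omega)]
        unfold cc
        rw [if_neg (by omega)]
        simp
    refine ⟨w, hw, f, hf, g, hgL, p, hp, ?_, fun h2 => ⟨hf0 h2, hp0 h2⟩⟩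
    rw [hg]; abel
  · have hd : d = 0 ∧ j = 0 := by omega
    have hvL : v ∈ LW d P Q j := by
      rw [mem_MV] at hv
      rw [mem_LW]
      exact ⟨fun k hk hjk => by omega, hv.2.1, hv.2.2⟩
    refine ⟨0, Submodule.zero_mem _, 0, Submodule.zero_mem _, v, hvL, 0, Submodule.zero_mem _,
      ?_, fun _ => ⟨rfl, rfl⟩⟩
    rw [map_zero, map_zero, zero_add, zero_add, add_zero]

theorem MV_indep (h : Sys A B d a P d b Q) (j : ℕ) (hj : 2 * j ≤ d)
    (w f g p : V) (hw : w ∈ LP d P Q j) (hf : f ∈ LW d P Q j) (hg : g ∈ LW d P Q j)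
    (hp : p ∈ LW d P Q (j + 1)) (h0 : quad A d a (j - 1) w + A f + g + p = 0)
    (hfp : 2 * j = d → f = 0 ∧ p = 0) : w = 0 ∧ f = 0 ∧ g = 0 ∧ p = 0 := by
  obtain ⟨c, hc⟩ := Sys.exists_Coord h
  have h4 := fun l hl => cc_four h hc j w f g p hw hf hg hp l hl
  simp only [h0, map_zero] at h4
  have hw0 : w = 0 := by
    rcases LP_eq j w hw with ⟨_, h2⟩ | ⟨h1, _⟩
    · exact h2
    · have h3 := h4 (j - 1) (by omega)
      rw [if_pos (by omega), if_neg (by omega), if_neg (by omega), add_zero, add_zero] at h3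
      exact h3.symm
  have hf0 : f = 0 := by
    by_cases h2 : 2 * j = d
    · exact (hfp h2).1
    · have h3 := h4 j (by omega)
      rw [if_neg (by omega), if_pos rfl, if_neg (by omega), add_zero, zero_add] at h3
      exact h3.symm
  have hp0 : p = 0 := by
    by_cases h2 : 2 * j = d
    · exact (hfp h2).2
    · by_cases h5 : 2 * j + 2 ≤ d
      · have h3 := h4 (j + 1) (by omega)
        rw [if_neg (by omega), if_neg (by omega), if_pos rfl, zero_add, zero_add] at h3
        exact h3.symm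
      · exact Sys.LW_big h (j + 1) (by omega) p hp
  refine ⟨hw0, hf0, ?_, hp0⟩
  rw [hw0, hf0, hp0, map_zero, map_zero, zero_add, zero_add, add_zero] at h0
  exact h0

theorem LP_finrank (j : ℕ) : finrank K (LP d P Q j) = nprev (LW d P Q) j := by
  rcases j with _ | j
  · exact finrank_bot K V
  · rfl

theorem MV_finrank [FiniteDimensional K V] (h : Sys A B d a P d b Q) (j : ℕ) (hj : 2 * j < d) :
    finrank K (MV d P Q j) = nprev (LW d P Q) j + 2 * finrank K (LW d P Q j) +
      finrank K (LW d P Q (j + 1)) := by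
  let Φ : (LP d P Q j × LW d P Q j × LW d P Q j × LW d P Q (j + 1)) →ₗ[K] MV d P Q j :=
    { toFun := fun t => ⟨quad A d a (j - 1) t.1 + A t.2.1 + t.2.2.1 + t.2.2.2,
        MV_four_mem h j _ _ _ _ t.1.2 t.2.1.2 t.2.2.1.2 t.2.2.2.2⟩
      map_add' := fun t t' => Subtype.ext (by
        simp only [Prod.fst_add, Prod.snd_add, Submodule.coe_add, map_add]
        abel)
      map_smul' := fun r t => Subtype.ext (by
        simp only [Prod.smul_fst, Prod.smul_snd, Submodule.coe_smul, map_smul, RingHom.id_apply,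
          smul_add]) }
  have hbij : Function.Bijective Φ := by
    constructor
    · rw [← LinearMap.ker_eq_bot, LinearMap.ker_eq_bot']
      rintro ⟨w, f, g, p⟩ h0
      have h1 : quad A d a (j - 1) (w : V) + A f + g + p = 0 := congrArg Subtype.val h0
      obtain ⟨e1, e2, e3, e4⟩ := MV_indep h j (by omega) _ _ _ _ w.2 f.2 g.2 p.2 h1 (by omega)
      exact Prod.ext (Subtype.ext e1) (Prod.ext (Subtype.ext e2) (Prod.ext (Subtype.ext e3)
        (Subtype.ext e4)))
    · rintro ⟨v, hv⟩
      obtain ⟨w, hw, f, hf, g, hg, p, hp, he, -⟩ := MV_split h j (by omega) v hv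
      exact ⟨(⟨w, hw⟩, ⟨f, hf⟩, ⟨g, hg⟩, ⟨p, hp⟩), Subtype.ext he.symm⟩
  rw [← (LinearEquiv.ofBijective Φ hbij).finrank_eq, finrank_prod, finrank_prod, finrank_prod,
    LP_finrank]
  ring

theorem MV_finrank' [FiniteDimensional K V] (h : Sys A B d a P d b Q) (j : ℕ) (hj : 2 * j = d) :
    finrank K (MV d P Q j) = nprev (LW d P Q) j + finrank K (LW d P Q j) := by
  let Φ : (LP d P Q j × LW d P Q j) →ₗ[K] MV d P Q j :=
    { toFun := fun t => ⟨quad A d a (j - 1) t.1 + A 0 + t.2 + 0,
        MV_four_mem h j _ _ _ _ t.1.2 (Submodule.zero_mem _) t.2.2 (Submodule.zero_mem _)⟩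
      map_add' := fun t t' => Subtype.ext (by
        simp only [Prod.fst_add, Prod.snd_add, Submodule.coe_add, map_add, map_zero]
        abel)
      map_smul' := fun r t => Subtype.ext (by
        simp only [Prod.smul_fst, Prod.smul_snd, Submodule.coe_smul, map_smul, RingHom.id_apply,
          smul_add, map_zero, smul_zero]) }
  have hbij : Function.Bijective Φ := by
    constructor
    · rw [← LinearMap.ker_eq_bot, LinearMap.ker_eq_bot']
      rintro ⟨w, g⟩ h0
      have h1 : quad A d a (j - 1) (w : V) + A 0 + g + 0 = 0 := congrArg Subtype.val h0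
      obtain ⟨e1, -, e3, -⟩ := MV_indep h j (by omega) _ _ _ _ w.2 (Submodule.zero_mem _) g.2
        (Submodule.zero_mem _) h1 (fun _ => ⟨rfl, rfl⟩)
      exact Prod.ext (Subtype.ext e1) (Subtype.ext e3)
    · rintro ⟨v, hv⟩
      obtain ⟨w, hw, f, hf, g, hg, p, hp, he, h2⟩ := MV_split h j (by omega) v hv
      obtain ⟨hf0, hp0⟩ := h2 hj
      rw [hf0, hp0] at he
      exact ⟨(⟨w, hw⟩, ⟨g, hg⟩), Subtype.ext he.symm⟩
  rw [← (LinearEquiv.ofBijective Φ hbij).finrank_eq, finrank_prod, LP_finrank]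

/-- The main theorem. -/
theorem main_flagTri [FiniteDimensional K V] {A B : Module.End K V} {d : ℕ} {a b : ℕ → K}
    (hA : TDOrdering A B d a) (hB : TDOrdering B A d b) (irred : Irred A B) :
    StringDecomp A B d a b ∧ (∃ β : K, Recur d a β) ∧
    (∀ β : K, Recur d a β → ∃ e : ParX (Low A B d a b) (Mid A B d a b) d ≃ₗ[K] FlagTri A B d a b,
      ∀ p, GivenX A d a β p (e p : Module.End K V)) ∧
    DimEigenspaces A B d a b ∧ DimMid A B d a b ∧ DimFlagTri A B d a b := by
  have h := TDOrdering.sys hA hB irred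
  have hL := Low_eq h.iA h.iB
  have hM := Mid_eq h.iA h.iB
  have hS := mem_FlagTri_iff h.iA h.iB
  refine ⟨(main hA hB irred).1, rec_a h, fun β hβ => exists_equivX h _ _ hL hM _ hS β hβ,
    (main_dim hA hB irred).2, ⟨fun j hj => ?_, fun j hj => ?_⟩, ?_⟩
  · rw [hM, hL]; exact MV_finrank h j hj
  · rw [hM, hL]; exact MV_finrank' h j hj
  · obtain ⟨β, hβ⟩ := rec_a h
    obtain ⟨e, -⟩ := exists_equivX h _ _ hL hM _ hS β hβ
    unfold DimFlagTri
    rw [← e.finrank_eq, ParX_finrank]

end Pool.Agent.H370.XT
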