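import Pool.Agent.H370.XT.Exh

/-! The relation between the four terms of the formula. -/

set_option autoImplicit false

namespace Pool.Agent.H370.XT

open Polynomial Module Pool.Agent.Helper9.TD Pool.Agent.R841.TD

variable {K : Type*} [Field K] {V : Type*} [AddCommGroup V] [Module K V]

variable {A B : Module.End K V} {d : ℕ} {a b : ℕ → K} {P Q : ℕ → Module.End K V}

theorem TT_step (β : K) (n : ℕ) : TT β (n + 2) = β * TT β (n + 1) - TT β n + 1 := rfl

/-- a solution of the inhomogeneous recurrence with two zeros -/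
theorem rec_zero {β C : K} (f : ℕ → K) (n : ℕ) (h0 : f 0 = 0) (h1 : f 1 = 0)
    (hf : ∀ s, s + 2 ≤ n → f (s + 2) - β * f (s + 1) + f s = C)
    (hT : TT β (n - 1) ≠ 0) (hfn : f n = 0) : ∀ s ≤ n, f s = 0 := by
  have key : ∀ s, s ≤ n → f s = C * TT β (s - 1) := by
    intro s
    induction s using Nat.strong_induction_on with
    | _ s ih =>
      intro hs
      rcases s with _ | _ | s
      · rw [h0]; exact (mul_zero C).symm
      · rw [h1]; exact (mul_zero C).symm
      · have i1 := ih (s + 1) (by omega) (by omega)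
        have i0 := ih s (by omega) (by omega)
        have h2 := hf s hs
        rw [show s + 1 + 1 = s + 2 from rfl, show s + 2 - 1 = s + 1 by omega]
        rw [show s + 1 - 1 = s by omega] at i1
        rcases s with _ | s
        · have t1 : TT β (0 + 1) = 1 := rfl
          rw [t1]
          have t0 : TT β 0 = 0 := rfl
          rw [t0, mul_zero] at i1
          have i0' : f 0 = 0 := h0
          rw [i0', i1] at h2
          linear_combination h2
        · rw [show s + 1 - 1 = s by omega] at i0
          have t := TT_step β s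
          rw [show s + 1 + 1 = s + 2 from rfl, t]
          linear_combination h2 + β * i1 - i0
  have hC : C = 0 := by
    have := key n le_rfl
    rw [hfn] at this
    rcases mul_eq_zero.mp this.symm with h | h
    · exact h
    · exact absurd h hT
  intro s hs
  rw [key s hs, hC, zero_mul]

/-- the scalar form of the relation -/
theorem rel_scalar (hinj : ∀ i ≤ d, ∀ j ≤ d, a i = a j → i = j) {β : K}
    (hrec : ∀ i, i + 3 ≤ d → a i - a (i + 3) = (β + 1) * (a (i + 1) - a (i + 2)))
    (j : ℕ) (hj1 : 1 ≤ j) (hj : 2 * j + 1 ≤ d) : ∃ x y g : K, ∀ s, 1 ≤ s → 2 * j + s ≤ d →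
      TT β (d + 1 - 2 * j - s) + AA d a j s * y + TT β (s - 1) * g - TT β (d + 1 - 2 * j) = 0 ∧
      TT β (d + 1 - 2 * j - s) * a (j - 1) - AA d a j s * x + TT β (s - 1) * (g * a (d - j)) -
        TT β (d + 1 - 2 * j) * a (j + s - 1) = 0 := by
  obtain ⟨γ, α, hα, ha⟩ := exists_extN d a β hrec
  obtain ⟨n, hn⟩ : ∃ n, d = 2 * j + n := ⟨d - 2 * j, by omega⟩
  have hn1 : 1 ≤ n := by omega
  have e1 : ∀ s, d + 1 - 2 * j - s = n + 1 - s := fun s => by omega
  have e2 : d + 1 - 2 * j = n + 1 := by omega
  set D : K := a j - a (d - j) with hD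
  have hD0 : D ≠ 0 := by
    intro h0
    have := hinj j (by omega) (d - j) (by omega) (sub_eq_zero.mp h0)
    omega
  have hA0 : AA d a j 0 = 0 := AA_zero d a j
  have hA1 : AA d a j 1 = D := AA_one d a j
  have hAn : AA d a j n = D := by
    have := AA_top d a j (by omega)
    rwa [show d - 2 * j = n by omega] at this
  -- recurrence of `AA`
  have hAs : ∀ s, AA d a j (s + 1) = AA d a j s + (a (j + s) - a (d - j - s)) := by
    intro s; rw [AA, AA, Finset.sum_range_succ]
  set κ : K := AA d a j 2 - β * AA d a j 1 with hκ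
  have hAr : ∀ s, s + 2 ≤ n → AA d a j (s + 2) - β * AA d a j (s + 1) + AA d a j s = κ := by
    intro s
    induction s with
    | zero => intro _; rw [hκ, hA0, add_zero]
    | succ s ih =>
      intro hs
      have i := ih (by omega)
      have r0 := hAs s
      have r1 := hAs (s + 1)
      have r2 := hAs (s + 1 + 1)
      have q1 := hα (j + s)
      have q2 := hα (d - j - (s + 2))
      rw [show d - j - (s + 2) + 1 = d - j - (s + 1) by omega,
        show d - j - (s + 2) + 2 = d - j - s by omega, ha _ (by omega), ha _ (by omega),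
        ha _ (by omega)] at q2
      rw [show j + s + 1 = j + (s + 1) by omega, show j + s + 2 = j + (s + 2) by omega,
        ha _ (by omega), ha _ (by omega), ha _ (by omega)] at q1
      rw [show s + 1 + 1 = s + 2 from rfl] at r1 r2 ⊢
      rw [show s + 1 + 2 = s + 2 + 1 from rfl]
      linear_combination i + r2 - β * r1 + r0 + q1 - q2
  have hTr : ∀ s, s + 2 ≤ n → TT β (n + 1 - (s + 2)) - β * TT β (n + 1 - (s + 1)) +
      TT β (n + 1 - s) = 1 := by
    intro s hs
    have t := TT_step β (n + 1 - (s + 2))
    rw [show n + 1 - (s + 2) + 2 = n + 1 - s by omega,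
      show n + 1 - (s + 2) + 1 = n + 1 - (s + 1) by omega] at t
    linear_combination t
  have hTs : ∀ s, TT β (s + 2 - 1) - β * TT β (s + 1 - 1) + TT β (s - 1) = 1 := by
    intro s
    rcases s with _ | s
    · have t1 : TT β (0 + 2 - 1) = 1 := rfl
      have t0 : TT β (0 + 1 - 1) = 0 := rfl
      have e0 : TT β (0 + 2 - 1) - β * TT β (0 + 1 - 1) + TT β (0 - 1) = 1 - β * 0 + 0 := rfl
      rw [e0]; ring
    · have t := TT_step β s
      rw [show s + 1 + 2 - 1 = s + 2 by omega, show s + 1 + 1 - 1 = s + 1 by omega,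
        show s + 1 - 1 = s by omega]
      linear_combination t
  have har : ∀ s, s + 2 ≤ n → a (j + (s + 2) - 1) - β * a (j + (s + 1) - 1) + a (j + s - 1) =
      γ := by
    intro s hs
    have q := hα (j + s - 1)
    rw [show j + s - 1 + 1 = j + (s + 1) - 1 by omega,
      show j + s - 1 + 2 = j + (s + 2) - 1 by omega, ha _ (by omega), ha _ (by omega),
      ha _ (by omega)] at q
    linear_combination q
  set y : K := (TT β (n + 1) - TT β n) / D with hy
  set x : K := (TT β n * a (j - 1) - TT β (n + 1) * a j) / D with hx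
  set g : K := (TT β n - 1) / TT β (n - 1) with hg
  have hyD : D * y = TT β (n + 1) - TT β n := by rw [hy]; field_simp
  have hxD : D * x = TT β n * a (j - 1) - TT β (n + 1) * a j := by rw [hx]; field_simp
  refine ⟨x, y, g, ?_⟩
  have F1 : TT β n + AA d a j 1 * y + TT β (1 - 1) * g - TT β (n + 1) = 0 := by
    have t0 : TT β (1 - 1) = 0 := rfl
    rw [hA1, hyD, t0]; ring
  have G1 : TT β n * a (j - 1) - AA d a j 1 * x + TT β (1 - 1) * (g * a (d - j)) -
      TT β (n + 1) * a (j + 1 - 1) = 0 := by
    have t0 : TT β (1 - 1) = 0 := rfl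
    rw [hA1, hxD, t0, show j + 1 - 1 = j by omega]; ring
  rcases (by omega : n = 1 ∨ 2 ≤ n) with hn' | hn2
  · intro s hs1 hs
    have : s = 1 := by omega
    subst this
    rw [e1, e2, show n + 1 - 1 = n by omega]
    exact ⟨F1, G1⟩
  · have hT : TT β (n - 1) ≠ 0 := by
      have := TT_ne_zero d a β hinj hrec (n - 2) (by omega)
      rwa [show n - 2 + 1 = n - 1 by omega] at this
    have hgT : TT β (n - 1) * g = TT β n - 1 := by rw [hg]; field_simp
    have hI : TT β n ^ 2 - TT β n = TT β (n + 1) * TT β (n - 1) := by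
      have := TT_I β (n - 1)
      rwa [show n - 1 + 1 = n by omega, show n - 1 + 2 = n + 1 by omega] at this
    have t1 : TT β 1 = 1 := rfl
    -- first relation
    have hF : ∀ s ≤ n, TT β (n + 1 - s) + AA d a j s * y + TT β (s - 1) * g - TT β (n + 1) = 0 := by
      refine rec_zero (β := β) (C := 1 + κ * y + g - (2 - β) * TT β (n + 1)) _ n ?_ ?_ ?_ hT ?_
      · have t0 : TT β (0 - 1) = 0 := rfl
        rw [hA0, t0, show n + 1 - 0 = n + 1 from rfl]; ring
      · rw [show n + 1 - 1 = n by omega]; exact F1
      · intro s hs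
        linear_combination hTr s hs + y * hAr s hs + g * hTs s
      · rw [show n + 1 - n = 1 by omega, t1, hAn, hyD, hgT]; ring
    have hG : ∀ s ≤ n, TT β (n + 1 - s) * a (j - 1) - AA d a j s * x +
        TT β (s - 1) * (g * a (d - j)) - TT β (n + 1) * a (j + s - 1) = 0 := by
      refine rec_zero (β := β) (C := a (j - 1) - κ * x + g * a (d - j) - TT β (n + 1) * γ)
        _ n ?_ ?_ ?_ hT ?_
      · have t0 : TT β (0 - 1) = 0 := rfl
        rw [hA0, t0, show n + 1 - 0 = n + 1 from rfl, show j + 0 - 1 = j - 1 from rfl]; ring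
      · rw [show n + 1 - 1 = n by omega]; exact G1
      · intro s hs
        linear_combination a (j - 1) * hTr s hs - x * hAr s hs + g * a (d - j) * hTs s -
          TT β (n + 1) * har s hs
      · rw [show n + 1 - n = 1 by omega, t1, hAn, hxD]
        have hEQ := TT_EQ hα (j - 1) (n - 2)
        rw [show n - 2 + 2 = n by omega, show n - 2 + 1 = n - 1 by omega,
          show j - 1 + (n - 2) + 2 = j + n - 1 by omega,
          show j - 1 + (n - 2) + 3 = d - j by omega, show j - 1 + 1 = j by omega,
          ha _ (by omega), ha _ (by omega), ha _ (by omega), ha _ (by omega)] at hEQ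
        have hcan : TT β (n - 1) * ((TT β n - 1) * (a (d - j) - a (j - 1)) -
            TT β (n + 1) * (a (j + n - 1) - a j)) = 0 := by
          linear_combination (-(TT β n - 1)) * hEQ + (a (j + n - 1) - a j) * hI
        have hcan' := (mul_eq_zero.mp hcan).resolve_left hT
        linear_combination hcan' + a (d - j) * hgT
    intro s hs1 hs
    rw [e1, e2]
    exact ⟨hF s (by omega), hG s (by omega)⟩

/-- the relation between the four terms -/
theorem rel_vec (hinj : ∀ i ≤ d, ∀ j ≤ d, a i = a j → i = j) {β : K}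
    (hrec : ∀ i, i + 3 ≤ d → a i - a (i + 3) = (β + 1) * (a (i + 1) - a (i + 2)))
    (j : ℕ) (hj1 : 1 ≤ j) (hj : 2 * j ≤ d) : ∃ x y g : K, ∀ s, 2 * j + s ≤ d → ∀ r : V,
      TT β (d + 1 - 2 * j) • aeval A (str a j s) r =
        TT β (d + 1 - 2 * j - s) • aeval A (str a (j - 1) s) r +
        AA d a j s • aeval A (str a j (s - 1)) (x • r + y • A r) +
        TT β (s - 1) • aeval A (str a (j + 1) (s - 2)) (g • quad A d a j r) := by
  have base : ∀ x y g : K, ∀ r : V, TT β (d + 1 - 2 * j) • aeval A (str a j 0) r =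
        TT β (d + 1 - 2 * j - 0) • aeval A (str a (j - 1) 0) r +
        AA d a j 0 • aeval A (str a j (0 - 1)) (x • r + y • A r) +
        TT β (0 - 1) • aeval A (str a (j + 1) (0 - 2)) (g • quad A d a j r) := by
    intro x y g r
    have t0 : TT β (0 - 1) = 0 := rfl
    rw [AA_zero, t0, zero_smul, zero_smul, add_zero, add_zero, str_zero, str_zero]
    rfl
  rcases (by omega : 2 * j = d ∨ 2 * j + 1 ≤ d) with h0 | h1
  · refine ⟨0, 0, 0, fun s hs r => ?_⟩
    have : s = 0 := by omega
    subst this
    exact base 0 0 0 r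
  obtain ⟨x, y, g, hxyg⟩ := rel_scalar hinj hrec j hj1 h1
  refine ⟨x, y, g, fun s hs r => ?_⟩
  rcases s with _ | s
  · exact base x y g r
  obtain ⟨hF, hG⟩ := hxyg (s + 1) (by omega) hs
  set w : V := aeval A (str a j s) r with hw
  have w1 : aeval A (str a j (s + 1)) r = A w - a (j + s) • w := by
    rw [hw, A_str]; abel
  have w2 : aeval A (str a (j - 1) (s + 1)) r = A w - a (j - 1) • w := by
    rw [str_succ', show j - 1 + 1 = j by omega, map_mul, Module.End.mul_apply, map_sub, aeval_X,
      aeval_C, LinearMap.sub_apply, Module.algebraMap_end_apply]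
  have w3 : aeval A (str a j (s + 1 - 1)) (x • r + y • A r) = x • w + y • A w := by
    rw [Nat.add_sub_cancel, map_add, map_smul, map_smul, hw]
    congr 2
    have h1 : aeval A (X * str a j s) r = aeval A (str a j s * X) r := by rw [mul_comm]
    rw [map_mul, map_mul, aeval_X, Module.End.mul_apply, Module.End.mul_apply] at h1
    exact h1.symm
  have w4 : TT β (s + 1 - 1) • aeval A (str a (j + 1) (s + 1 - 2)) (g • quad A d a j r) =
      (TT β s * g) • (A w - a (d - j) • w) := by
    rcases s with _ | s
    · have t0 : TT β 0 = 0 := rfl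
      rw [show 0 + 1 - 1 = 0 from rfl, t0, zero_smul, zero_mul, zero_smul]
    · rw [show s + 1 + 1 - 1 = s + 1 by omega, show s + 1 + 1 - 2 = s by omega, map_smul, smul_smul]
      congr 1
      have hq : quad A d a j r = aeval A ((X - C (a j)) * (X - C (a (d - j)))) r := by
        rw [map_mul, Module.End.mul_apply, map_sub, map_sub, aeval_X, aeval_C, aeval_C,
          LinearMap.sub_apply, LinearMap.sub_apply, Module.algebraMap_end_apply,
          Module.algebraMap_end_apply, quad_apply]
      rw [hq, ← Module.End.mul_apply, ← map_mul]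
      have hp : str a (j + 1) s * ((X - C (a j)) * (X - C (a (d - j)))) =
          (X - C (a (d - j))) * str a j (s + 1) := by
        rw [str_succ']; ring
      rw [hp, map_mul, Module.End.mul_apply, map_sub, aeval_X, aeval_C, LinearMap.sub_apply,
        Module.algebraMap_end_apply, hw]
  rw [w1, w2, w3, w4]
  rw [show s + 1 - 1 = s by omega] at hF hG
  rw [show j + (s + 1) - 1 = j + s by omega] at hG
  have e : (TT β (d + 1 - 2 * j - (s + 1)) • (A w - a (j - 1) • w) +
        AA d a j (s + 1) • (x • w + y • A w) + (TT β s * g) • (A w - a (d - j) • w)) -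
      TT β (d + 1 - 2 * j) • (A w - a (j + s) • w) =
      (TT β (d + 1 - 2 * j - (s + 1)) + AA d a j (s + 1) * y + TT β s * g -
        TT β (d + 1 - 2 * j)) • A w -
      (TT β (d + 1 - 2 * j - (s + 1)) * a (j - 1) - AA d a j (s + 1) * x +
        TT β s * (g * a (d - j)) - TT β (d + 1 - 2 * j) * a (j + s)) • w := by
    module
  rw [hF, hG, zero_smul, zero_smul, sub_zero, sub_eq_zero] at e
  exact e.symm

end Pool.Agent.H370.XT
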