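import Pool.Agent.H370.XT.Match

/-! Every map with the two conditions is given by the formula. -/

set_option autoImplicit false

namespace Pool.Agent.H370.XT

open Polynomial Module Pool.Agent.Helper9.TD Pool.Agent.R841.TD

variable {K : Type*} [Field K] {V : Type*} [AddCommGroup V] [Module K V]

variable {A B : Module.End K V} {d : ℕ} {a b : ℕ → K} {P Q : ℕ → Module.End K V}
  {X : Module.End K V} {c : ∀ l, ℕ → (V →ₗ[K] LW d P Q l)}

/-- the symbol as a linear map -/
noncomputable def yl (A : Module.End K V) (a : ℕ → K) (c : ∀ l, ℕ → (V →ₗ[K] LW d P Q l))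
    (X : Module.End K V) (j l s : ℕ) : LW d P Q j →ₗ[K] LW d P Q l :=
  cc c l (j + s) ∘ₗ X ∘ₗ aeval A (str a j s) ∘ₗ (LW d P Q j).subtype

theorem AA_one (d : ℕ) (a : ℕ → K) (j : ℕ) : AA d a j 1 = a j - a (d - j) := by
  simp [AA]

theorem AA_one_ne (iA : Idem A d a P) (j : ℕ) (hj : 2 * j + 1 ≤ d) : AA d a j 1 ≠ 0 := by
  rw [AA_one]
  intro h
  have := iA.inj j (by omega) (d - j) (by omega) (sub_eq_zero.mp h)
  omega

theorem AA_low {β : K} (hrec : ∀ i, i + 3 ≤ d → a i - a (i + 3) = (β + 1) * (a (i + 1) - a (i + 2)))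
    (j : ℕ) (hj : 2 * j + 3 ≤ d) :
    AA d a (j + 1) (d - 2 * (j + 1) - 1) - TT β 2 * AA d a (j + 1) (d - 2 * (j + 1)) =
      -(a j - a (d - j)) := by
  obtain ⟨γ, α, hα, ha⟩ := exists_ext d a β hrec
  obtain ⟨n, hn⟩ : ∃ n, d - 2 * (j + 1) = n + 1 := ⟨d - 2 * (j + 1) - 1, by omega⟩
  have htop := AA_top d a (j + 1) (by omega)
  have hsucc : AA d a (j + 1) (n + 1) = AA d a (j + 1) n +
      (a (j + 1 + n) - a (d - (j + 1) - n)) := by
    rw [AA, AA, Finset.sum_range_succ]
  rw [hn] at htop ⊢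
  rw [Nat.add_sub_cancel]
  have t2 : TT β 2 = β + 1 := by
    have h1 : TT β 2 = β * 1 - 0 + 1 := rfl
    rw [h1, mul_one, sub_zero]
  have e1 : j + 1 + n = d - (j + 2) := by omega
  have e2 : d - (j + 1) - n = j + 2 := by omega
  rw [e1, e2] at hsucc
  have r1 := hα ((j : ℤ) + 1)
  have r2 := hα (((d - (j + 1) : ℕ) : ℤ))
  have i1 := ha j (by omega)
  have i2 := ha (j + 1) (by omega)
  have i3 := ha (j + 2) (by omega)
  have i4 := ha (d - j) (by omega)
  have i5 := ha (d - (j + 1)) (by omega)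
  have i6 := ha (d - (j + 2)) (by omega)
  rw [show (j : ℤ) + 1 - 1 = (j : ℤ) by ring, show (j : ℤ) + 1 + 1 = ((j + 2 : ℕ) : ℤ) by
    push_cast; ring, show (j : ℤ) + 1 = ((j + 1 : ℕ) : ℤ) by push_cast; ring, i1, i2, i3] at r1
  rw [show (((d - (j + 1) : ℕ) : ℤ)) - 1 = ((d - (j + 2) : ℕ) : ℤ) by omega,
    show (((d - (j + 1) : ℕ) : ℤ)) + 1 = ((d - j : ℕ) : ℤ) by omega, i4, i5, i6] at r2
  rw [t2]
  linear_combination (-1 : K) * hsucc - β * htop + r1 - r2

/-- the parameters of the explicit map with the same symbol as `X` -/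
noncomputable def parOf (A : Module.End K V) (a : ℕ → K) (β : K)
    (c : ∀ l, ℕ → (V →ₗ[K] LW d P Q l)) (X : Module.End K V) : Par7 d P Q where
  c j := yl A a c X j j 0
  f j := if 2 * j + 1 ≤ d then (AA d a j 1)⁻¹ • (yl A a c X j j 1 - yl A a c X j j 0) else 0
  e j := if 2 * j + 2 ≤ d then yl A a c X j j 2 - yl A a c X j j 0 -
    AA d a j 2 • ((AA d a j 1)⁻¹ • (yl A a c X j j 1 - yl A a c X j j 0)) else 0
  p j := if 2 * j + 2 ≤ d then (AA d a j 1)⁻¹ • yl A a c X j (j + 1) 1 else 0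
  g j := if 2 * j + 3 ≤ d then yl A a c X j (j + 1) 2 -
    AA d a j 2 • ((AA d a j 1)⁻¹ • yl A a c X j (j + 1) 1) else 0
  k j := if 2 * j + 4 ≤ d then yl A a c X j (j + 2) 2 else 0
  w j := if 2 * j + 3 ≤ d then (-(a j - a (d - j)))⁻¹ •
    (yl A a c X (j + 1) j (d - 2 * (j + 1) - 1) - TT β 2 • yl A a c X (j + 1) j (d - 2 * (j + 1)))
    else 0
  h j := if 2 * j + 2 ≤ d then yl A a c X (j + 1) j (d - 2 * (j + 1)) -
    AA d a (j + 1) (d - 2 * (j + 1)) • (if 2 * j + 3 ≤ d then (-(a j - a (d - j)))⁻¹ •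
    (yl A a c X (j + 1) j (d - 2 * (j + 1) - 1) - TT β 2 • yl A a c X (j + 1) j (d - 2 * (j + 1)))
    else 0) else 0
  m j := if 2 * j + 4 ≤ d then yl A a c X (j + 2) j (d - 2 * (j + 2)) else 0

theorem pick_self (l : ℕ) (r : V) : pick l l r = r := if_pos rfl

theorem pick_ne {l l' : ℕ} (h : l ≠ l') (r : V) : pick l l' r = 0 := if_neg h

theorem sy_sub (X X' : Module.End K V) (j l s : ℕ) (q : V) :
    sy A a c (X - X') j l s q = sy A a c X j l s q - sy A a c X' j l s q := by
  unfold sy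
  rw [LinearMap.sub_apply, map_sub]

theorem sy_zero_of_lt (X : Module.End K V) (j l s : ℕ) (q : V) (h : j + s < l) :
    sy A a c X j l s q = 0 := by
  unfold sy cc
  rw [if_neg (by omega)]
  rfl

theorem exists_par (h : Sys A B d a P d b Q) {β : K}
    (hrec : ∀ i, i + 3 ≤ d → a i - a (i + 3) = (β + 1) * (a (i + 1) - a (i + 2)))
    (hX : SX d P Q X) : ∃ (t : Par7 d P Q) (X' : Module.End K V),
      FmlX A d a P Q β (fun j => (LW d P Q j).subtype ∘ₗ t.c j) (t.φ A a) (t.γ A a) (t.η A a) X' ∧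
      SL d P Q (X - X') := by
  obtain ⟨c, hc⟩ := Sys.exists_Coord h
  set t := parOf A a β c X with ht
  obtain ⟨X', hX'⟩ := Sys.exists_FmlX h β (fun j => (LW d P Q j).subtype ∘ₗ t.c j) (t.φ A a)
    (t.γ A a) (t.η A a)
  have hη0 : ∀ q : LW d P Q 0, t.η A a 0 q = 0 := by
    intro q
    show (0 : V) + 0 = 0
    rw [add_zero]
  have hSX' : SX d P Q X' := FmlX.SX h β hrec _ _ _ _ (fun j q => (t.c j q).2) (t.φ_mem h)
    (t.γ_mem h) (t.η_mem h) hη0 hX'
  refine ⟨t, X', hX', ?_⟩
  have hZ : SX d P Q (X - X') := by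
    refine ⟨fun i hi k hk hik v => ?_, fun i hi k hk hik v => ?_⟩
    · rw [LinearMap.sub_apply, map_sub, hX.low i hi k hk hik, hSX'.low i hi k hk hik, sub_zero]
    · rw [LinearMap.sub_apply, map_sub, hX.tri i hi k hk hik, hSX'.tri i hi k hk hik, sub_zero]
  have hsy := sy_par (c := c) h hc β t hX'
  have T0 : TT β (0 - 1) = 0 := rfl
  have T0' : TT β (1 - 1) = 0 := rfl
  have T1 : TT β (2 - 1) = 1 := rfl
  -- values of the parameters
  refine SL_of_sy h hc hZ ?_
  intro j l s hjs hls q hq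
  rcases lt_or_ge l j with hlj | hlj
  · -- backward
    refine sy_down h hc hrec hZ j l q hq (fun s hs hs3 => ?_) s
    rw [sy_sub]
    refine Subtype.ext ?_
    rw [Submodule.coe_sub, hsy j l s hs (by omega) ⟨q, hq⟩, pick_ne (by omega), pick_ne (by omega),
      pick_ne (by omega), zero_add, zero_add, zero_add]
    rcases (by omega : l + 1 = j ∨ l + 2 = j) with e | e
    · subst e
      rw [pick_self, pick_ne (by omega), add_zero]
      have z1 : sh1 (fun i => (LW d P Q i).subtype ∘ₗ t.w i) (l + 1) ⟨q, hq⟩ =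
        (t.w l ⟨q, hq⟩ : V) := rfl
      have z2 : sh1 (fun i => (LW d P Q i).subtype ∘ₗ t.h i) (l + 1) ⟨q, hq⟩ =
        (t.h l ⟨q, hq⟩ : V) := rfl
      rw [z1, z2]
      by_cases h3 : 2 * l + 3 ≤ d
      · have vw : t.w l ⟨q, hq⟩ = (-(a l - a (d - l)))⁻¹ •
            (sy A a c X (l + 1) l (d - 2 * (l + 1) - 1) q -
              TT β 2 • sy A a c X (l + 1) l (d - 2 * (l + 1)) q) := by
          show (if 2 * l + 3 ≤ d then (-(a l - a (d - l)))⁻¹ •
            (yl A a c X (l + 1) l (d - 2 * (l + 1) - 1) -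
              TT β 2 • yl A a c X (l + 1) l (d - 2 * (l + 1))) else 0 :
              LW d P Q (l + 1) →ₗ[K] LW d P Q l) ⟨q, hq⟩ = _
          rw [if_pos h3]
          rfl
        have vh : t.h l ⟨q, hq⟩ = sy A a c X (l + 1) l (d - 2 * (l + 1)) q -
            AA d a (l + 1) (d - 2 * (l + 1)) • t.w l ⟨q, hq⟩ := by
          rw [vw]
          show (if 2 * l + 2 ≤ d then yl A a c X (l + 1) l (d - 2 * (l + 1)) -
            AA d a (l + 1) (d - 2 * (l + 1)) • (if 2 * l + 3 ≤ d then (-(a l - a (d - l)))⁻¹ •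
            (yl A a c X (l + 1) l (d - 2 * (l + 1) - 1) -
              TT β 2 • yl A a c X (l + 1) l (d - 2 * (l + 1))) else 0) else 0 :
              LW d P Q (l + 1) →ₗ[K] LW d P Q l) ⟨q, hq⟩ = _
          rw [if_pos (by omega), if_pos h3]
          rfl
        rcases (by omega : s = d - 2 * (l + 1) ∨ s = d - 2 * (l + 1) - 1) with e | e
        · rw [e, vh, show d + 1 - 2 * (l + 1) - (d - 2 * (l + 1)) = 1 by omega]
          have : TT β 1 = 1 := rfl
          rw [this, one_smul, Submodule.coe_sub, Submodule.coe_smul]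
          show _ = (0 : V)
          abel
        · rw [e, vh, show d + 1 - 2 * (l + 1) - (d - 2 * (l + 1) - 1) = 2 by omega]
          have hlow := AA_low hrec l h3
          have hne : -(a l - a (d - l)) ≠ 0 := by
            rw [neg_ne_zero]
            intro h0
            have := h.iA.inj l (by omega) (d - l) (by omega) (sub_eq_zero.mp h0)
            omega
          have hkey : AA d a (l + 1) (d - 2 * (l + 1) - 1) • t.w l ⟨q, hq⟩ + TT β 2 •
              (sy A a c X (l + 1) l (d - 2 * (l + 1)) q -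
                AA d a (l + 1) (d - 2 * (l + 1)) • t.w l ⟨q, hq⟩) =
              sy A a c X (l + 1) l (d - 2 * (l + 1) - 1) q := by
            have e5 : AA d a (l + 1) (d - 2 * (l + 1) - 1) • t.w l ⟨q, hq⟩ + TT β 2 •
              (sy A a c X (l + 1) l (d - 2 * (l + 1)) q -
                AA d a (l + 1) (d - 2 * (l + 1)) • t.w l ⟨q, hq⟩) =
              (AA d a (l + 1) (d - 2 * (l + 1) - 1) -
                TT β 2 * AA d a (l + 1) (d - 2 * (l + 1))) • t.w l ⟨q, hq⟩ +
                TT β 2 • sy A a c X (l + 1) l (d - 2 * (l + 1)) q := by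
              module
            rw [e5, hlow, vw, smul_smul, mul_inv_cancel₀ hne, one_smul]
            abel
          have hkey' := congrArg Subtype.val hkey
          rw [Submodule.coe_add, Submodule.coe_smul, Submodule.coe_smul] at hkey'
          rw [hkey']
          show _ = (0 : V)
          abel
      · have hd : d = 2 * (l + 1) := by omega
        have vw : t.w l ⟨q, hq⟩ = 0 := by
          show (if 2 * l + 3 ≤ d then (-(a l - a (d - l)))⁻¹ •
            (yl A a c X (l + 1) l (d - 2 * (l + 1) - 1) -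
              TT β 2 • yl A a c X (l + 1) l (d - 2 * (l + 1))) else 0 :
              LW d P Q (l + 1) →ₗ[K] LW d P Q l) ⟨q, hq⟩ = _
          rw [if_neg h3]
          rfl
        have vh : t.h l ⟨q, hq⟩ = sy A a c X (l + 1) l (d - 2 * (l + 1)) q := by
          show (if 2 * l + 2 ≤ d then yl A a c X (l + 1) l (d - 2 * (l + 1)) -
            AA d a (l + 1) (d - 2 * (l + 1)) • (if 2 * l + 3 ≤ d then (-(a l - a (d - l)))⁻¹ •
            (yl A a c X (l + 1) l (d - 2 * (l + 1) - 1) -
              TT β 2 • yl A a c X (l + 1) l (d - 2 * (l + 1))) else 0) else 0 :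
              LW d P Q (l + 1) →ₗ[K] LW d P Q l) ⟨q, hq⟩ = _
          rw [if_pos (by omega), if_neg h3, smul_zero, sub_zero]
          rfl
        have hs0 : s = d - 2 * (l + 1) := by omega
        rw [vw, vh, hs0, show d + 1 - 2 * (l + 1) - (d - 2 * (l + 1)) = 1 by omega]
        have : TT β 1 = 1 := rfl
        rw [this, one_smul, Submodule.coe_zero, smul_zero, zero_add, sub_self]
    · subst e
      rw [pick_ne (by omega), pick_self, zero_add]
      have z1 : sh2 (fun i => (LW d P Q i).subtype ∘ₗ t.m i) (l + 2) ⟨q, hq⟩ =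
        (t.m l ⟨q, hq⟩ : V) := rfl
      have vm : t.m l ⟨q, hq⟩ = sy A a c X (l + 2) l (d - 2 * (l + 2)) q := by
        show (if 2 * l + 4 ≤ d then yl A a c X (l + 2) l (d - 2 * (l + 2)) else 0 :
          LW d P Q (l + 2) →ₗ[K] LW d P Q l) ⟨q, hq⟩ = _
        rw [if_pos (by omega)]
        rfl
      have hs0 : s = d - 2 * (l + 2) := by omega
      rw [z1, vm, hs0, show d + 1 - 2 * (l + 2) - (d - 2 * (l + 2)) = 1 by omega]
      have : TT β 1 = 1 := rfl
      rw [this, one_smul, sub_self]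
      rfl
  · -- forward
    refine sy_up h hc hrec hZ j l q hq (fun s hs2 hs => ?_) s hls
    by_cases hll : j + s < l
    · exact sy_zero_of_lt _ j l s q hll
    rw [sy_sub]
    refine Subtype.ext ?_
    rw [Submodule.coe_sub, hsy j l s (by omega) (by omega) ⟨q, hq⟩, pick_ne (l := l + 1) (by omega),
      pick_ne (l := l + 2) (by omega), add_zero, add_zero]
    rcases (by omega : l = j ∨ l = j + 1 ∨ l = j + 2) with e | e | e
    · subst e
      rw [pick_self, pick_ne (by omega), pick_ne (by omega), add_zero, add_zero]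
      have vc : t.c l ⟨q, hq⟩ = sy A a c X l l 0 q := rfl
      rcases (by omega : s = 0 ∨ s = 1 ∨ s = 2) with e | e | e
      · subst e
        rw [vc, AA_zero, T0, zero_smul, zero_smul, add_zero, add_zero, sub_self]
        rfl
      · subst e
        have hne := AA_one_ne h.iA l (by omega)
        have vf : t.f l ⟨q, hq⟩ = (AA d a l 1)⁻¹ • (sy A a c X l l 1 q - sy A a c X l l 0 q) := by
          show (if 2 * l + 1 ≤ d then (AA d a l 1)⁻¹ • (yl A a c X l l 1 - yl A a c X l l 0) else 0 :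
            LW d P Q l →ₗ[K] LW d P Q l) ⟨q, hq⟩ = _
          rw [if_pos (by omega)]
          rfl
        rw [vc, vf, T0', zero_smul, add_zero, Submodule.coe_smul, smul_smul, mul_inv_cancel₀ hne,
          one_smul, Submodule.coe_sub]
        show _ = (0 : V)
        abel
      · subst e
        have vf : t.f l ⟨q, hq⟩ = (AA d a l 1)⁻¹ • (sy A a c X l l 1 q - sy A a c X l l 0 q) := by
          show (if 2 * l + 1 ≤ d then (AA d a l 1)⁻¹ • (yl A a c X l l 1 - yl A a c X l l 0) else 0 :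
            LW d P Q l →ₗ[K] LW d P Q l) ⟨q, hq⟩ = _
          rw [if_pos (by omega)]
          rfl
        have ve : t.e l ⟨q, hq⟩ = sy A a c X l l 2 q - sy A a c X l l 0 q -
            AA d a l 2 • t.f l ⟨q, hq⟩ := by
          rw [vf]
          show (if 2 * l + 2 ≤ d then yl A a c X l l 2 - yl A a c X l l 0 -
            AA d a l 2 • ((AA d a l 1)⁻¹ • (yl A a c X l l 1 - yl A a c X l l 0)) else 0 :
            LW d P Q l →ₗ[K] LW d P Q l) ⟨q, hq⟩ = _
          rw [if_pos (by omega)]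
          rfl
        rw [vc, ve, T1, one_smul, Submodule.coe_sub, Submodule.coe_sub, Submodule.coe_smul]
        show _ = (0 : V)
        abel
    · subst e
      rw [pick_ne (by omega), pick_self, pick_ne (by omega), add_zero, zero_add]
      rcases (by omega : s = 1 ∨ s = 2) with e | e
      · subst e
        have hne := AA_one_ne h.iA j (by omega)
        have vp : t.p j ⟨q, hq⟩ = (AA d a j 1)⁻¹ • sy A a c X j (j + 1) 1 q := by
          show (if 2 * j + 2 ≤ d then (AA d a j 1)⁻¹ • yl A a c X j (j + 1) 1 else 0 :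
            LW d P Q j →ₗ[K] LW d P Q (j + 1)) ⟨q, hq⟩ = _
          rw [if_pos (by omega)]
          rfl
        rw [vp, T0', zero_smul, add_zero, Submodule.coe_smul, smul_smul, mul_inv_cancel₀ hne,
          one_smul, sub_self]
        rfl
      · subst e
        have vp : t.p j ⟨q, hq⟩ = (AA d a j 1)⁻¹ • sy A a c X j (j + 1) 1 q := by
          show (if 2 * j + 2 ≤ d then (AA d a j 1)⁻¹ • yl A a c X j (j + 1) 1 else 0 :
            LW d P Q j →ₗ[K] LW d P Q (j + 1)) ⟨q, hq⟩ = _
          rw [if_pos (by omega)]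
          rfl
        have vg : t.g j ⟨q, hq⟩ = sy A a c X j (j + 1) 2 q - AA d a j 2 • t.p j ⟨q, hq⟩ := by
          rw [vp]
          show (if 2 * j + 3 ≤ d then yl A a c X j (j + 1) 2 -
            AA d a j 2 • ((AA d a j 1)⁻¹ • yl A a c X j (j + 1) 1) else 0 :
            LW d P Q j →ₗ[K] LW d P Q (j + 1)) ⟨q, hq⟩ = _
          rw [if_pos (by omega)]
          rfl
        rw [vg, T1, one_smul, Submodule.coe_sub, Submodule.coe_smul]
        show _ = (0 : V)
        abel
    · subst e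
      have e2 : s = 2 := by omega
      subst e2
      rw [pick_ne (by omega), pick_ne (by omega), pick_self, add_zero, zero_add]
      have vk : t.k j ⟨q, hq⟩ = sy A a c X j (j + 2) 2 q := by
        show (if 2 * j + 4 ≤ d then yl A a c X j (j + 2) 2 else 0 :
          LW d P Q j →ₗ[K] LW d P Q (j + 2)) ⟨q, hq⟩ = _
        rw [if_pos (by omega)]
        rfl
      rw [vk, T1, one_smul, sub_self]
      rfl

end Pool.Agent.H370.XT
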