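import Pool.Agent.H370.XT.Dims

/-! The classification in terms of families of maps. -/

set_option autoImplicit false

namespace Pool.Agent.H370.XT

open Polynomial Module Pool.Agent.Helper9.TD Pool.Agent.R841.TD

variable {K : Type*} [Field K] {V : Type*} [AddCommGroup V] [Module K V]

/-- the vector `c q` of `V` -/
def ap0 {L : ℕ → Submodule K V} (c : L 0 →ₗ[K] L 0) (q : L 0) : V := (c q : V)

/-- The formula for `X` on the strings `τ_{0,s} q`, `q ∈ L_0`:
`X τ_{0,s} q = τ_{0,s} c q + ϑ_{0,s} τ_{0,s-1} φ_0 q + T_{s-1} τ_{1,s-2} γ_0 q`. -/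
def ZeroF (A : Module.End K V) (d : ℕ) (a : ℕ → K) (β : K) {L M : ℕ → Submodule K V}
    (c : L 0 →ₗ[K] L 0) (φ : Fam L M) (γ : Fam L (fun j => M (j + 1))) (X : Module.End K V) :
    Prop :=
  ∀ s ≤ d, ∀ q : L 0, X (tau A a 0 s q) = tau A a 0 s (ap0 c q) +
    AA d a 0 s • tau A a 0 (s - 1) (ap φ 0 q) + TT β (s - 1) • tau A a 1 (s - 2) (ap γ 0 q)

/-- The formula for `X` on the strings `τ_{i,s} q`, `q ∈ L_i`, where `i = j + 1`:
`X τ_{i,s} q = ϑ_{i,s} τ_{i,s-1} φ_i q + T_{s-1} τ_{i+1,s-2} γ_i q + T_{d+1-2i-s} τ_{i-1,s} η_j q`. -/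
def SuccF (A : Module.End K V) (d : ℕ) (a : ℕ → K) (β : K) {L M : ℕ → Submodule K V}
    (φ : Fam L M) (γ : Fam L (fun j => M (j + 1))) (η : Fam (fun j => L (j + 1)) M)
    (X : Module.End K V) (j : ℕ) : Prop :=
  ∀ s, 2 * (j + 1) + s ≤ d → ∀ q : L (j + 1), X (tau A a (j + 1) s q) =
    AA d a (j + 1) s • tau A a (j + 1) (s - 1) (ap φ (j + 1) q) +
    TT β (s - 1) • tau A a (j + 2) (s - 2) (ap γ (j + 1) q) +
    TT β (d - 1 - 2 * j - s) • tau A a j s (ap η j q)

/-- `X` is the map given by `c`, `φ`, `γ`, `η`. -/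
def Given (A : Module.End K V) (d : ℕ) (a : ℕ → K) (β : K) {L M : ℕ → Submodule K V}
    (c : L 0 →ₗ[K] L 0) (φ : Fam L M) (γ : Fam L (fun j => M (j + 1)))
    (η : Fam (fun j => L (j + 1)) M) (X : Module.End K V) : Prop :=
  ZeroF A d a β c φ γ X ∧ ∀ j, SuccF A d a β φ γ η X j

/-- Every `(c, φ, γ, η)` defines exactly one `X`, and this `X` satisfies the two conditions. -/
def ProducesX (A B : Module.End K V) (d : ℕ) (a b : ℕ → K) (β : K) : Prop :=
  ∀ (c : Low A B d a b 0 →ₗ[K] Low A B d a b 0) (φ : Fam (Low A B d a b) (Mid A B d a b))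
    (γ : Fam (Low A B d a b) (fun j => Mid A B d a b (j + 1)))
    (η : Fam (fun j => Low A B d a b (j + 1)) (Mid A B d a b)),
    (∃! X, Given A d a β c φ γ η X) ∧ ∀ X, Given A d a β c φ γ η X → IsFlagTri A B d a b X

/-- Every `X` with the two conditions is defined by some `(c, φ, γ, η)`. -/
def ExhaustsX (A B : Module.End K V) (d : ℕ) (a b : ℕ → K) (β : K) : Prop :=
  ∀ X, IsFlagTri A B d a b X → ∃ (c : Low A B d a b 0 →ₗ[K] Low A B d a b 0)
    (φ : Fam (Low A B d a b) (Mid A B d a b))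
    (γ : Fam (Low A B d a b) (fun j => Mid A B d a b (j + 1)))
    (η : Fam (fun j => Low A B d a b (j + 1)) (Mid A B d a b)), Given A d a β c φ γ η X

/-- The maps `c`, `φ_j` (`2 j < d`), `γ_j` and `η_j` (`2 j + 2 ≤ d`) are determined by `X`. -/
def FaithfulX (A B : Module.End K V) (d : ℕ) (a b : ℕ → K) (β : K) : Prop :=
  ∀ (c c' : Low A B d a b 0 →ₗ[K] Low A B d a b 0) (φ φ' : Fam (Low A B d a b) (Mid A B d a b))
    (γ γ' : Fam (Low A B d a b) (fun j => Mid A B d a b (j + 1)))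
    (η η' : Fam (fun j => Low A B d a b (j + 1)) (Mid A B d a b)) (X : Module.End K V),
    Given A d a β c φ γ η X → Given A d a β c' φ' γ' η' X →
      c = c' ∧ (∀ j, 2 * j < d → φ j = φ' j) ∧ (∀ j, 2 * j + 2 ≤ d → γ j = γ' j ∧ η j = η' j)

/-- `n_j = dim L_j` -/
noncomputable def nL (A B : Module.End K V) (d : ℕ) (a b : ℕ → K) (j : ℕ) : ℕ :=
  finrank K (Low A B d a b j)

/-- `m_j = dim M_j` -/
noncomputable def nM (A B : Module.End K V) (d : ℕ) (a b : ℕ → K) (j : ℕ) : ℕ :=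
  finrank K (Mid A B d a b j)

/-- `m_0 = 2 n_0 + n_1` if `0 < d`, and `m_{j+1} = n_j + 2 n_{j+1} + n_{j+2}` if `2 (j + 1) < d`,
and `m_{j+1} = n_j + n_{j+1}` if `2 (j + 1) = d`. -/
def DimsM (A B : Module.End K V) (d : ℕ) (a b : ℕ → K) : Prop :=
  (0 < d → nM A B d a b 0 = 2 * nL A B d a b 0 + nL A B d a b 1) ∧
  (∀ j, 2 * (j + 1) < d → nM A B d a b (j + 1) =
    nL A B d a b j + 2 * nL A B d a b (j + 1) + nL A B d a b (j + 2)) ∧
  (∀ j, 2 * (j + 1) = d → nM A B d a b (j + 1) = nL A B d a b j + nL A B d a b (j + 1))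

/-- `dim {X} = n_0² + ∑_{2j<d} n_j m_j + ∑_{2j+2≤d} (n_j m_{j+1} + n_{j+1} m_j)` -/
def DimX (A B : Module.End K V) (d : ℕ) (a b : ℕ → K) : Prop :=
  finrank K (FlagTri A B d a b) = nL A B d a b 0 ^ 2 +
    ∑ j ∈ Finset.range ((d + 1) / 2), nL A B d a b j * nM A B d a b j +
    ∑ j ∈ Finset.range (d / 2),
      (nL A B d a b j * nM A B d a b (j + 1) + nL A B d a b (j + 1) * nM A B d a b j)

variable {A B : Module.End K V} {d : ℕ} {a b : ℕ → K} {P Q : ℕ → Module.End K V}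
  {X : Module.End K V}

theorem given_iff (β : K) (c : LW d P Q 0 →ₗ[K] LW d P Q 0) (φ : Fam (LW d P Q) (MV d P Q))
    (γ : Fam (LW d P Q) (fun j => MV d P Q (j + 1)))
    (η : Fam (fun j => LW d P Q (j + 1)) (MV d P Q)) :
    Given A d a β c φ γ η X ↔ FmlX A d a P Q β (cV c) (fun j => (MV d P Q j).subtype ∘ₗ φ j)
      (fun j => (MV d P Q (j + 1)).subtype ∘ₗ γ j) (hV η) X := by
  constructor
  · rintro ⟨h1, h2⟩ j s hjs q
    rcases j with _ | j
    · have h3 := h1 s (by omega) q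
      have h4 : hV η 0 q = 0 := rfl
      rw [h4, map_zero, smul_zero, add_zero]
      exact h3
    · have h3 := h2 j s hjs q
      have h4 : cV c (j + 1) q = 0 := rfl
      rw [h4, map_zero, zero_add, show d + 1 - 2 * (j + 1) - s = d - 1 - 2 * j - s by omega]
      exact h3
  · intro h
    refine ⟨fun s hs q => ?_, fun j s hjs q => ?_⟩
    · have h3 := h 0 s (by omega) q
      have h4 : hV η 0 q = 0 := rfl
      rw [h4, map_zero, smul_zero, add_zero] at h3
      exact h3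
    · have h3 := h (j + 1) s hjs q
      have h4 : cV c (j + 1) q = 0 := rfl
      rw [h4, map_zero, zero_add, show d + 1 - 2 * (j + 1) - s = d - 1 - 2 * j - s by omega] at h3
      exact h3

theorem fam_unique (h : Sys A B d a P d b Q) {β : K}
    (hrec : ∀ i, i + 3 ≤ d → a i - a (i + 3) = (β + 1) * (a (i + 1) - a (i + 2)))
    {c c' : LW d P Q 0 →ₗ[K] LW d P Q 0} {φ φ' : Fam (LW d P Q) (MV d P Q)}
    {γ γ' : Fam (LW d P Q) (fun j => MV d P Q (j + 1))}
    {η η' : Fam (fun j => LW d P Q (j + 1)) (MV d P Q)}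
    (hX : Given A d a β c φ γ η X) (hX' : Given A d a β c' φ' γ' η' X) :
    c = c' ∧ (∀ j, 2 * j < d → φ j = φ' j) ∧ (∀ j, 2 * j + 2 ≤ d → γ j = γ' j ∧ η j = η' j) := by
  rw [given_iff] at hX hX'
  have e0 : ∀ (v : V) (j : ℕ), aeval A (str a j 0) v = v := by
    intro v j; rw [str_zero, map_one]; rfl
  have t0 : TT β (0 - 1) = 0 := rfl
  have t0' : TT β (1 - 1) = 0 := rfl
  have t1 : TT β (2 - 1) = 1 := rfl
  have hc : ∀ q : LW d P Q 0, c q = c' q := by
    intro q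
    have h1 := (hX 0 0 (by omega) q).symm.trans (hX' 0 0 (by omega) q)
    have h2 : hV η 0 q = 0 := rfl
    have h2' : hV η' 0 q = 0 := rfl
    rw [AA_zero, t0, zero_smul, zero_smul, zero_smul, zero_smul, add_zero, add_zero, add_zero,
      add_zero, h2, h2', map_zero, smul_zero, add_zero, add_zero, e0, e0] at h1
    exact Subtype.ext h1
  have hh : ∀ j, 2 * (j + 1) ≤ d → ∀ q : LW d P Q (j + 1), η j q = η' j q := by
    intro j hj q
    have h1 := (hX (j + 1) 0 (by omega) q).symm.trans (hX' (j + 1) 0 (by omega) q)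
    have h2 : cV c (j + 1) q = 0 := rfl
    have h2' : cV c' (j + 1) q = 0 := rfl
    rw [AA_zero, t0, zero_smul, zero_smul, zero_smul, zero_smul, add_zero, add_zero, add_zero,
      add_zero, h2, h2', map_zero, zero_add, zero_add, e0, e0] at h1
    have hT : TT β (d + 1 - 2 * (j + 1) - 0) ≠ 0 := by
      have := TT_ne_zero d a β h.iA.inj hrec (d - 2 * (j + 1)) (by omega)
      rwa [show d - 2 * (j + 1) + 1 = d + 1 - 2 * (j + 1) - 0 by omega] at this
    exact Subtype.ext (smul_right_injective V hT h1)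
  have hcV : ∀ j (q : LW d P Q j), cV c j q = cV c' j q := by
    intro j q
    rcases j with _ | j
    · show ((c q : LW d P Q 0) : V) = (c' q : V)
      rw [hc q]
    · rfl
  have hhV : ∀ j (q : LW d P Q j), 2 * j ≤ d → hV η j q = hV η' j q := by
    intro j q hj
    rcases j with _ | j
    · rfl
    · show ((η j q : MV d P Q j) : V) = (η' j q : V)
      rw [hh j hj q]
  have hf : ∀ j, 2 * j + 1 ≤ d → ∀ q : LW d P Q j, φ j q = φ' j q := by
    intro j hj q
    have h1 := (hX j 1 (by omega) q).symm.trans (hX' j 1 (by omega) q)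
    rw [hcV, hhV j q (by omega), add_left_inj, t0', zero_smul, zero_smul, add_zero, add_zero,
      add_right_inj, show 1 - 1 = 0 from rfl, e0, e0] at h1
    exact Subtype.ext (smul_right_injective V (AA_one_ne h.iA j hj) h1)
  have hg : ∀ j, 2 * j + 2 ≤ d → ∀ q : LW d P Q j, γ j q = γ' j q := by
    intro j hj q
    have h1 := (hX j 2 (by omega) q).symm.trans (hX' j 2 (by omega) q)
    have h2 : ((fun j => (MV d P Q j).subtype ∘ₗ φ j) j : LW d P Q j →ₗ[K] V) q =
        ((fun j => (MV d P Q j).subtype ∘ₗ φ' j) j : LW d P Q j →ₗ[K] V) q := by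
      show ((φ j q : MV d P Q j) : V) = (φ' j q : V)
      rw [hf j (by omega) q]
    rw [hcV, hhV j q (by omega), add_left_inj, h2, add_right_inj, t1, one_smul, one_smul,
      show 2 - 2 = 0 from rfl, e0, e0] at h1
    exact Subtype.ext h1
  exact ⟨LinearMap.ext hc, fun j hj => LinearMap.ext (hf j (by omega)),
    fun j hj => ⟨LinearMap.ext (hg j hj), LinearMap.ext (hh j (by omega))⟩⟩

theorem producesX (h : Sys A B d a P d b Q) (L M : ℕ → Submodule K V) (hL : L = LW d P Q)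
    (hM : M = MV d P Q) (β : K) (hrec : Recur d a β) (c : L 0 →ₗ[K] L 0) (φ : Fam L M)
    (γ : Fam L (fun j => M (j + 1))) (η : Fam (fun j => L (j + 1)) M) :
    (∃! X, Given A d a β c φ γ η X) ∧ ∀ X, Given A d a β c φ γ η X → SX d P Q X := by
  subst hL
  subst hM
  obtain ⟨X, hX⟩ := Sys.exists_FmlX h β (cV c) (fun j => (MV d P Q j).subtype ∘ₗ φ j)
    (fun j => (MV d P Q (j + 1)).subtype ∘ₗ γ j) (hV η)
  refine ⟨⟨X, (given_iff β c φ γ η).mpr hX, fun X' hX' => ?_⟩, fun X' hX' => ?_⟩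
  · exact FmlX.ext h ((given_iff β c φ γ η).mp hX') hX
  · refine FmlX.SX h β hrec _ _ _ _ ?_ ?_ ?_ ?_ ?_ ((given_iff β c φ γ η).mp hX')
    · intro j q
      rcases j with _ | j
      · exact (c q).2
      · exact Submodule.zero_mem _
    · intro j q; exact (φ j q).2
    · intro j q; exact (γ j q).2
    · intro j q; exact hV_mem _ j q
    · intro q; rfl

theorem exhaustsX (h : Sys A B d a P d b Q) (L M : ℕ → Submodule K V) (hL : L = LW d P Q)
    (hM : M = MV d P Q) (β : K) (hrec : Recur d a β) (hX : SX d P Q X) :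
    ∃ (c : L 0 →ₗ[K] L 0) (φ : Fam L M) (γ : Fam L (fun j => M (j + 1)))
      (η : Fam (fun j => L (j + 1)) M), Given A d a β c φ γ η X := by
  subst hL
  subst hM
  obtain ⟨p, hp⟩ := exists_givenX h hrec hX
  exact ⟨xc p, xf p, xg p, xh p, (given_iff β _ _ _ _).mpr ((givenX_iff β p).mp hp)⟩

theorem faithfulX (h : Sys A B d a P d b Q) (L M : ℕ → Submodule K V) (hL : L = LW d P Q)
    (hM : M = MV d P Q) (β : K) (hrec : Recur d a β) {c c' : L 0 →ₗ[K] L 0} {φ φ' : Fam L M}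
    {γ γ' : Fam L (fun j => M (j + 1))} {η η' : Fam (fun j => L (j + 1)) M}
    (hX : Given A d a β c φ γ η X) (hX' : Given A d a β c' φ' γ' η' X) :
    c = c' ∧ (∀ j, 2 * j < d → φ j = φ' j) ∧ (∀ j, 2 * j + 2 ≤ d → γ j = γ' j ∧ η j = η' j) := by
  subst hL
  subst hM
  exact fam_unique h hrec hX hX'

/-- The main theorem. -/
theorem main_X [FiniteDimensional K V] {A B : Module.End K V} {d : ℕ} {a b : ℕ → K}
    (hA : TDOrdering A B d a) (hB : TDOrdering B A d b) (irred : Irred A B) :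
    StringDecomp A B d a b ∧ (∃ β : K, Recur d a β) ∧
    (∀ β : K, Recur d a β →
      ProducesX A B d a b β ∧ ExhaustsX A B d a b β ∧ FaithfulX A B d a b β) ∧
    DimEigenspaces A B d a b ∧ DimsM A B d a b ∧ DimX A B d a b := by
  have h := TDOrdering.sys hA hB irred
  have hL := Low_eq h.iA h.iB
  have hM := Mid_eq h.iA h.iB
  have hS := mem_FlagTri_iff h.iA h.iB
  obtain ⟨h1, h2, -, h4, h5, h6⟩ := main_flagTri hA hB irred
  refine ⟨h1, h2, fun β hβ => ⟨fun c φ γ η => ?_, fun X hX => ?_,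
    fun c c' φ φ' γ γ' η η' X hX hX' => ?_⟩, h4, ⟨fun hd => ?_, fun j hj => ?_, fun j hj => ?_⟩, h6⟩
  · obtain ⟨e1, e2⟩ := producesX h _ _ hL hM β hβ c φ γ η
    exact ⟨e1, fun X hX => (hS X).mpr (e2 X hX)⟩
  · exact exhaustsX h _ _ hL hM β hβ ((hS X).mp hX)
  · exact faithfulX h _ _ hL hM β hβ hX hX'
  · have := h5.1 0 hd
    unfold nM nL
    rw [this]
    show 0 + _ + _ = _
    rw [zero_add]
  · exact h5.1 (j + 1) hj
  · exact h5.2 (j + 1) hj

end Pool.Agent.H370.XT
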