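import Pool.Agent.H370.XT.Elim

/-! The final form of the classification. -/

set_option autoImplicit false

namespace Pool.Agent.H370.XT

open Polynomial Module Pool.Agent.Helper9.TD Pool.Agent.R841.TD

variable {K : Type*} [Field K] {V : Type*} [AddCommGroup V] [Module K V]

/-- `M_j = (V*_0 + ⋯ + V*_{j+1}) ∩ (V_j + ⋯ + V_{d-j})`, where `V_i`, `V*_i` are the eigenspaces
of `A`, `B` for the eigenvalues `a i`, `b i` (`0 ≤ i ≤ d`, and `V*_{d+1} = 0`). -/
def Mid (A B : Module.End K V) (d : ℕ) (a b : ℕ → K) (j : ℕ) : Submodule K V :=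
  (⨆ (i : ℕ) (_ : i ≤ j + 1 ∧ i ≤ d), B.eigenspace (b i)) ⊓
    (⨆ (i : ℕ) (_ : j ≤ i ∧ i + j ≤ d), A.eigenspace (a i))

/-- `X V*_i ⊆ V*_0 + ⋯ + V*_i` and `X V_i ⊆ V_{i-1} + V_i + V_{i+1}` for `0 ≤ i ≤ d`. -/
def IsFlagTri (A B : Module.End K V) (d : ℕ) (a b : ℕ → K) (X : Module.End K V) : Prop :=
  (∀ i ≤ d, ∀ v ∈ B.eigenspace (b i), X v ∈ ⨆ (k : ℕ) (_ : k ≤ i), B.eigenspace (b k)) ∧
  (∀ i ≤ d, ∀ v ∈ A.eigenspace (a i),
    X v ∈ ⨆ (k : ℕ) (_ : k ≤ d ∧ k ≤ i + 1 ∧ i ≤ k + 1), A.eigenspace (a k))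

/-- The space of the linear maps `X` with `X V*_i ⊆ V*_0 + ⋯ + V*_i` and
`X V_i ⊆ V_{i-1} + V_i + V_{i+1}` for `0 ≤ i ≤ d`. -/
def FlagTri (A B : Module.End K V) (d : ℕ) (a b : ℕ → K) : Submodule K (Module.End K V) where
  carrier := {X | IsFlagTri A B d a b X}
  add_mem' := fun h h' => ⟨fun i hi v hv => Submodule.add_mem _ (h.1 i hi v hv) (h'.1 i hi v hv),
    fun i hi v hv => Submodule.add_mem _ (h.2 i hi v hv) (h'.2 i hi v hv)⟩
  zero_mem' := ⟨fun _ _ _ _ => Submodule.zero_mem _, fun _ _ _ _ => Submodule.zero_mem _⟩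
  smul_mem' := fun c _ h => ⟨fun i hi v hv => Submodule.smul_mem _ c (h.1 i hi v hv),
    fun i hi v hv => Submodule.smul_mem _ c (h.2 i hi v hv)⟩

/-- The parameters: an endomorphism of `L 0`, linear maps `L j → M j` for `2 j + 1 ≤ d`, and
linear maps `L j → M (j+1)` and `L (j+1) → M j` for `2 j + 2 ≤ d`. -/
abbrev ParX (L M : ℕ → Submodule K V) (d : ℕ) : Type _ :=
  (L 0 →ₗ[K] L 0) × (∀ j : Fin ((d + 1) / 2), L j →ₗ[K] M j) ×
    (∀ j : Fin (d / 2), L j →ₗ[K] M (j + 1)) × (∀ j : Fin (d / 2), L (j + 1) →ₗ[K] M j)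

/-- the component `c : L 0 → L 0` -/
def xc {L M : ℕ → Submodule K V} {d : ℕ} (p : ParX L M d) : L 0 →ₗ[K] L 0 := p.1

/-- the component `φ_j : L j → M j`, which is `0` if `2 j ≥ d` -/
def xf {L M : ℕ → Submodule K V} {d : ℕ} (p : ParX L M d) (j : ℕ) : L j →ₗ[K] M j :=
  if hj : j < (d + 1) / 2 then p.2.1 ⟨j, hj⟩ else 0

/-- the component `γ_j : L j → M (j+1)`, which is `0` if `2 j + 2 > d` -/
def xg {L M : ℕ → Submodule K V} {d : ℕ} (p : ParX L M d) (j : ℕ) : L j →ₗ[K] M (j + 1) :=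
  if hj : j < d / 2 then p.2.2.1 ⟨j, hj⟩ else 0

/-- the component `η_j : L (j+1) → M j`, which is `0` if `2 j + 2 > d` -/
def xh {L M : ℕ → Submodule K V} {d : ℕ} (p : ParX L M d) (j : ℕ) : L (j + 1) →ₗ[K] M j :=
  if hj : j < d / 2 then p.2.2.2 ⟨j, hj⟩ else 0

/-- The formula for `X` on the strings `τ_{0,s} q`, `q ∈ L_0`:
`X τ_{0,s} q = τ_{0,s} c q + ϑ_{0,s} τ_{0,s-1} φ_0 q + T_{s-1} τ_{1,s-2} γ_0 q`. -/
def GivenZero (A : Module.End K V) (d : ℕ) (a : ℕ → K) (β : K) {L M : ℕ → Submodule K V}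
    (p : ParX L M d) (X : Module.End K V) : Prop :=
  ∀ s ≤ d, ∀ q : L 0, X (tau A a 0 s q) = tau A a 0 s (xc p q) +
    AA d a 0 s • tau A a 0 (s - 1) (xf p 0 q) + TT β (s - 1) • tau A a 1 (s - 2) (xg p 0 q)

/-- The formula for `X` on the strings `τ_{i,s} q`, `q ∈ L_i`, where `i = j + 1`:
`X τ_{i,s} q = ϑ_{i,s} τ_{i,s-1} φ_i q + T_{s-1} τ_{i+1,s-2} γ_i q + T_{d+1-2i-s} τ_{i-1,s} η_j q`. -/
def GivenSucc (A : Module.End K V) (d : ℕ) (a : ℕ → K) (β : K) {L M : ℕ → Submodule K V}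
    (p : ParX L M d) (X : Module.End K V) (j : ℕ) : Prop :=
  ∀ s, 2 * (j + 1) + s ≤ d → ∀ q : L (j + 1), X (tau A a (j + 1) s q) =
    AA d a (j + 1) s • tau A a (j + 1) (s - 1) (xf p (j + 1) q) +
    TT β (s - 1) • tau A a (j + 2) (s - 2) (xg p (j + 1) q) +
    TT β (d - 1 - 2 * j - s) • tau A a j s (xh p j q)

/-- `X` is the map given by the parameters `p`. -/
def GivenX (A : Module.End K V) (d : ℕ) (a : ℕ → K) (β : K) {L M : ℕ → Submodule K V}
    (p : ParX L M d) (X : Module.End K V) : Prop :=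
  GivenZero A d a β p X ∧ ∀ j, GivenSucc A d a β p X j

/-- the number `n_{j-1} = dim L_{j-1}`, which is `0` for `j = 0` -/
noncomputable def nprev (L : ℕ → Submodule K V) : ℕ → ℕ
  | 0 => 0
  | (j + 1) => finrank K (L j)

/-- `dim M_j = n_{j-1} + 2 n_j + n_{j+1}` for `2 j < d` and `dim M_j = n_{j-1} + n_j` for
`2 j = d`, where `n_j = dim L_j`. -/
def DimMid (A B : Module.End K V) (d : ℕ) (a b : ℕ → K) : Prop :=
  (∀ j, 2 * j < d → finrank K (Mid A B d a b j) = nprev (Low A B d a b) j +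
    2 * finrank K (Low A B d a b j) + finrank K (Low A B d a b (j + 1))) ∧
  (∀ j, 2 * j = d → finrank K (Mid A B d a b j) = nprev (Low A B d a b) j +
    finrank K (Low A B d a b j))

/-- `dim {X} = n_0² + ∑_{2j<d} n_j m_j + ∑_{2j+2≤d} (n_j m_{j+1} + n_{j+1} m_j)`, where
`n_j = dim L_j` and `m_j = dim M_j`. -/
def DimFlagTri (A B : Module.End K V) (d : ℕ) (a b : ℕ → K) : Prop :=
  finrank K (FlagTri A B d a b) = finrank K (Low A B d a b 0) ^ 2 +
    ∑ j ∈ Finset.range ((d + 1) / 2), finrank K (Low A B d a b j) * finrank K (Mid A B d a b j) +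
    ∑ j ∈ Finset.range (d / 2),
      (finrank K (Low A B d a b j) * finrank K (Mid A B d a b (j + 1)) +
      finrank K (Low A B d a b (j + 1)) * finrank K (Mid A B d a b j))

variable {A B : Module.End K V} {d : ℕ} {a b : ℕ → K} {P Q : ℕ → Module.End K V}
  {X : Module.End K V}

theorem Mid_eq (iA : Idem A d a P) (iB : Idem B d b Q) : Mid A B d a b = MV d P Q := by
  funext j
  ext v
  rw [Mid, Submodule.mem_inf, mem_iSup_iff iB _ (fun k hk => hk.2) v,
    mem_iSup_iff iA _ (fun k hk => by omega) v, mem_MV]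
  constructor
  · rintro ⟨h1, h2⟩
    exact ⟨fun k hk hjk => h1 k hk (by omega), fun k hk hjk => h2 k hk (by omega),
      fun k hk hjk => h2 (d - k) (by omega) (by omega)⟩
  · rintro ⟨h1, h2, h3⟩
    refine ⟨fun k hk hjk => h1 k hk (by omega), fun k hk hjk => ?_⟩
    by_cases hkj : k < j
    · exact h2 k hk hkj
    · have := h3 (d - k) (by omega) (by omega)
      rwa [Nat.sub_sub_self hk] at this

theorem mem_FlagTri_iff (iA : Idem A d a P) (iB : Idem B d b Q) (X : Module.End K V) :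
    X ∈ FlagTri A B d a b ↔ SX d P Q X := by
  have hdef : X ∈ FlagTri A B d a b ↔ (∀ i ≤ d, ∀ v ∈ B.eigenspace (b i),
      X v ∈ ⨆ (k : ℕ) (_ : k ≤ i), B.eigenspace (b k)) ∧
    (∀ i ≤ d, ∀ v ∈ A.eigenspace (a i),
      X v ∈ ⨆ (k : ℕ) (_ : k ≤ d ∧ k ≤ i + 1 ∧ i ≤ k + 1), A.eigenspace (a k)) := Iff.rfl
  rw [hdef]
  constructor
  · rintro ⟨h1, h2⟩
    refine ⟨fun i hi k hk hik v => ?_, fun i hi k hk hik v => ?_⟩
    · have h3 := h1 i hi (Q i v) (by rw [Module.End.mem_eigenspace_iff]; exact iB.eig i hi v)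
      rw [mem_iSup_iff iB _ (fun k hk => by omega)] at h3
      exact h3 k hk (by omega)
    · have h3 := h2 i hi (P i v) (by rw [Module.End.mem_eigenspace_iff]; exact iA.eig i hi v)
      rw [mem_iSup_iff iA _ (fun k hk => hk.1)] at h3
      exact h3 k hk (by omega)
  · intro hX
    refine ⟨fun i hi v hv => ?_, fun i hi v hv => ?_⟩
    · rw [Module.End.mem_eigenspace_iff] at hv
      rw [mem_iSup_iff iB _ (fun k hk => by omega)]
      intro k hk hki
      rw [← iB.mem i hi v hv]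
      exact hX.low i hi k hk (by omega) v
    · rw [Module.End.mem_eigenspace_iff] at hv
      rw [mem_iSup_iff iA _ (fun k hk => hk.1)]
      intro k hk hki
      rw [← iA.mem i hi v hv]
      exact hX.tri i hi k hk (by omega) v

/-- the component of the fourth kind as a map into `V` -/
def hV (z : ∀ j, LW d P Q (j + 1) →ₗ[K] MV d P Q j) : ∀ j, LW d P Q j →ₗ[K] V
  | 0 => 0
  | (j + 1) => (MV d P Q j).subtype ∘ₗ z j

/-- the component of the first kind as a map into `V` -/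
def cV (c : LW d P Q 0 →ₗ[K] LW d P Q 0) : ∀ j, LW d P Q j →ₗ[K] V
  | 0 => (LW d P Q 0).subtype ∘ₗ c
  | (_ + 1) => 0

theorem givenX_iff (β : K) (p : ParX (LW d P Q) (MV d P Q) d) :
    GivenX A d a β p X ↔ FmlX A d a P Q β (cV (xc p)) (fun j => (MV d P Q j).subtype ∘ₗ xf p j)
      (fun j => (MV d P Q (j + 1)).subtype ∘ₗ xg p j) (hV (xh p)) X := by
  constructor
  · rintro ⟨h1, h2⟩ j s hjs q
    rcases j with _ | j
    · have h3 := h1 s (by omega) q
      have h4 : hV (xh p) 0 q = 0 := rfl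
      rw [h4, map_zero, smul_zero, add_zero]
      exact h3
    · have h3 := h2 j s hjs q
      have h4 : cV (xc p) (j + 1) q = 0 := rfl
      rw [h4, map_zero, zero_add, show d + 1 - 2 * (j + 1) - s = d - 1 - 2 * j - s by omega]
      exact h3
  · intro h
    refine ⟨fun s hs q => ?_, fun j s hjs q => ?_⟩
    · have h3 := h 0 s (by omega) q
      have h4 : hV (xh p) 0 q = 0 := rfl
      rw [h4, map_zero, smul_zero, add_zero] at h3
      exact h3
    · have h3 := h (j + 1) s hjs q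
      have h4 : cV (xc p) (j + 1) q = 0 := rfl
      rw [h4, map_zero, zero_add, show d + 1 - 2 * (j + 1) - s = d - 1 - 2 * j - s by omega] at h3
      exact h3

theorem givenX_add {L M : ℕ → Submodule K V} {β : K} {p p' : ParX L M d} {X X' : Module.End K V}
    (h : GivenX A d a β p X) (h' : GivenX A d a β p' X') :
    GivenX A d a β (p + p') (X + X') := by
  have e1 : ∀ j, xf (p + p') j = xf p j + xf p' j := by
    intro j; unfold xf; split_ifs
    · rfl
    · rw [add_zero]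
  have e2 : ∀ j, xg (p + p') j = xg p j + xg p' j := by
    intro j; unfold xg; split_ifs
    · rfl
    · rw [add_zero]
  have e3 : ∀ j, xh (p + p') j = xh p j + xh p' j := by
    intro j; unfold xh; split_ifs
    · rfl
    · rw [add_zero]
  have e0 : xc (p + p') = xc p + xc p' := rfl
  refine ⟨fun s hs q => ?_, fun j s hjs q => ?_⟩
  · rw [LinearMap.add_apply, h.1 s hs q, h'.1 s hs q, e0, e1, e2]
    simp only [LinearMap.add_apply, Submodule.coe_add, map_add, smul_add]
    abel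
  · rw [LinearMap.add_apply, h.2 j s hjs q, h'.2 j s hjs q, e1, e2, e3]
    simp only [LinearMap.add_apply, Submodule.coe_add, map_add, smul_add]
    abel

theorem givenX_smul {L M : ℕ → Submodule K V} {β : K} {p : ParX L M d} {X : Module.End K V} (c : K)
    (h : GivenX A d a β p X) : GivenX A d a β (c • p) (c • X) := by
  have e1 : ∀ j, xf (c • p) j = c • xf p j := by
    intro j; unfold xf; split_ifs
    · rfl
    · rw [smul_zero]
  have e2 : ∀ j, xg (c • p) j = c • xg p j := by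
    intro j; unfold xg; split_ifs
    · rfl
    · rw [smul_zero]
  have e3 : ∀ j, xh (c • p) j = c • xh p j := by
    intro j; unfold xh; split_ifs
    · rfl
    · rw [smul_zero]
  have e0 : xc (c • p) = c • xc p := rfl
  refine ⟨fun s hs q => ?_, fun j s hjs q => ?_⟩
  · rw [LinearMap.smul_apply, h.1 s hs q, e0, e1, e2]
    simp only [LinearMap.smul_apply, Submodule.coe_smul, map_smul, smul_add]
    rw [smul_comm c, smul_comm c (TT β (s - 1))]
  · rw [LinearMap.smul_apply, h.2 j s hjs q, e1, e2, e3]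
    simp only [LinearMap.smul_apply, Submodule.coe_smul, map_smul, smul_add]
    rw [smul_comm c, smul_comm c (TT β (s - 1)), smul_comm c (TT β (d - 1 - 2 * j - s))]

theorem FmlX.ext (h : Sys A B d a P d b Q) {β : K} {c f g z : ∀ j, LW d P Q j →ₗ[K] V}
    {X X' : Module.End K V} (hX : FmlX A d a P Q β c f g z X) (hX' : FmlX A d a P Q β c f g z X') :
    X = X' :=
  Sys.map_ext h X X' fun j s hjs q hq => (hX j s hjs ⟨q, hq⟩).trans (hX' j s hjs ⟨q, hq⟩).symm

/-- every map with the two conditions is given by parameters -/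
theorem exists_givenX (h : Sys A B d a P d b Q) {β : K}
    (hrec : ∀ i, i + 3 ≤ d → a i - a (i + 3) = (β + 1) * (a (i + 1) - a (i + 2)))
    (hX : SX d P Q X) : ∃ p : ParX (LW d P Q) (MV d P Q) d, GivenX A d a β p X := by
  obtain ⟨t, X', hX', hSL⟩ := exists_par h hrec hX
  obtain ⟨f, g, z, hfgz⟩ := Sys.exists_Fml h β hrec hSL
  -- the relations
  have hrel : ∀ j, ∃ x y u : K, 1 ≤ j → 2 * j ≤ d → ∀ s, 2 * j + s ≤ d → ∀ r : V,
      TT β (d + 1 - 2 * j) • aeval A (str a j s) r =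
        TT β (d + 1 - 2 * j - s) • aeval A (str a (j - 1) s) r +
        AA d a j s • aeval A (str a j (s - 1)) (x • r + y • A r) +
        TT β (s - 1) • aeval A (str a (j + 1) (s - 2)) (u • quad A d a j r) := by
    intro j
    by_cases hj : 1 ≤ j ∧ 2 * j ≤ d
    · obtain ⟨x, y, u, hxyu⟩ := rel_vec (V := V) (A := A) h.iA.inj hrec j hj.1 hj.2
      exact ⟨x, y, u, fun _ _ => hxyu⟩
    · exact ⟨0, 0, 0, fun h1 h2 => absurd ⟨h1, h2⟩ hj⟩
  choose x y u hxyu using hrel
  let κ : ℕ → K := fun j => if j = 0 then 0 else (TT β (d + 1 - 2 * j))⁻¹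
  -- the new components
  let φ : ∀ j, LW d P Q j →ₗ[K] V := fun j => t.φ A a j + (LW d P Q j).subtype ∘ₗ f j +
    κ j • (x j • ((LW d P Q j).subtype ∘ₗ t.c j) + y j • (A ∘ₗ (LW d P Q j).subtype ∘ₗ t.c j))
  let ψ : ∀ j, LW d P Q j →ₗ[K] V := fun j => t.γ A a j + (LW d P Q (j + 1)).subtype ∘ₗ g j +
    κ j • (u j • (quad A d a j ∘ₗ (LW d P Q j).subtype ∘ₗ t.c j))
  let ζ : ∀ j, LW d P Q (j + 1) →ₗ[K] V := fun j => t.η A a (j + 1) +
    (LW d P Q j).subtype ∘ₗ z j + κ (j + 1) • ((LW d P Q (j + 1)).subtype ∘ₗ t.c (j + 1))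
  have hφ : ∀ j q, φ j q ∈ MV d P Q j := by
    intro j q
    refine Submodule.add_mem _ (Submodule.add_mem _ (t.φ_mem h j q) (LW_le_MV j (f j q).2)) ?_
    refine Submodule.smul_mem _ _ (Submodule.add_mem _ (Submodule.smul_mem _ _ ?_)
      (Submodule.smul_mem _ _ ?_))
    · exact LW_le_MV j (t.c j q).2
    · exact A_mem h j _ (t.c j q).2
  have hψ : ∀ j q, ψ j q ∈ MV d P Q (j + 1) := by
    intro j q
    refine Submodule.add_mem _ (Submodule.add_mem _ (t.γ_mem h j q)
      (LW_le_MV (j + 1) (g j q).2)) ?_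
    exact Submodule.smul_mem _ _ (Submodule.smul_mem _ _ (quad_mem h j _ (t.c j q).2))
  have hζ : ∀ j q, ζ j q ∈ MV d P Q j := by
    intro j q
    refine Submodule.add_mem _ (Submodule.add_mem _ ?_ (LW_le_MV j (z j q).2)) ?_
    · have := t.η_mem h (j + 1) q
      rwa [Nat.add_sub_cancel] at this
    · exact Submodule.smul_mem _ _ (LW_succ_le_MV j (t.c (j + 1) q).2)
  let p : ParX (LW d P Q) (MV d P Q) d :=
    (t.c 0, fun j => (φ j).codRestrict _ (hφ j), fun j => (ψ j).codRestrict _ (hψ j),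
      fun j => (ζ j).codRestrict _ (hζ j))
  refine ⟨p, (givenX_iff β p).mpr ?_⟩
  -- the formula with the total families
  have htot : FmlX A d a P Q β (fun j => (LW d P Q j).subtype ∘ₗ t.c j)
      (fun j => t.φ A a j + (LW d P Q j).subtype ∘ₗ f j)
      (fun j => t.γ A a j + (LW d P Q (j + 1)).subtype ∘ₗ g j)
      (fun j => t.η A a j + zV z j) X := by
    intro j s hjs q
    have e1 : X (aeval A (str a j s) (q : V)) = X' (aeval A (str a j s) (q : V)) +
        (X - X') (aeval A (str a j s) (q : V)) := by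
      rw [LinearMap.sub_apply]; abel
    rw [e1, hX' j s hjs q, hfgz j s hjs q]
    simp only [LinearMap.add_apply, map_add, smul_add, LinearMap.comp_apply,
      Submodule.subtype_apply]
    abel
  intro j s hjs q
  rw [htot j s hjs q]
  have hcφ : AA d a j s • aeval A (str a j (s - 1)) (((MV d P Q j).subtype ∘ₗ xf p j) q) =
      AA d a j s • aeval A (str a j (s - 1)) (φ j q) := by
    by_cases hj : j < (d + 1) / 2
    · congr 2
      show ((xf p j q : MV d P Q j) : V) = _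
      have : xf p j = (φ j).codRestrict _ (hφ j) := by unfold xf; rw [dif_pos hj]
      rw [this]
      rfl
    · rw [show s = 0 by omega, AA_zero, zero_smul, zero_smul]
  have hcψ : TT β (s - 1) • aeval A (str a (j + 1) (s - 2))
      (((MV d P Q (j + 1)).subtype ∘ₗ xg p j) q) =
      TT β (s - 1) • aeval A (str a (j + 1) (s - 2)) (ψ j q) := by
    by_cases hj : j < d / 2
    · congr 2
      show ((xg p j q : MV d P Q (j + 1)) : V) = _
      have : xg p j = (ψ j).codRestrict _ (hψ j) := by unfold xg; rw [dif_pos hj]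
      rw [this]
      rfl
    · have h0 : TT β (s - 1) = 0 := by
        rw [show s - 1 = 0 by omega]; rfl
      rw [h0, zero_smul, zero_smul]
  have hcφ' := hcφ
  rw [show ((fun j => (MV d P Q j).subtype ∘ₗ xf p j) j : LW d P Q j →ₗ[K] V) =
    (MV d P Q j).subtype ∘ₗ xf p j from rfl,
    show ((fun j => (MV d P Q (j + 1)).subtype ∘ₗ xg p j) j : LW d P Q j →ₗ[K] V) =
    (MV d P Q (j + 1)).subtype ∘ₗ xg p j from rfl, hcφ, hcψ]
  rcases j with _ | j
  · have k0 : κ 0 = 0 := if_pos rfl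
    have h1 : cV (xc p) 0 q = (t.c 0 q : V) := rfl
    have h2 : hV (xh p) 0 q = 0 := rfl
    have h3 : t.η A a 0 q + zV z 0 q = 0 := by
      show ((0 : V) + 0) + 0 = 0
      rw [add_zero, add_zero]
    have h4 : φ 0 q = (t.φ A a 0 + (LW d P Q 0).subtype ∘ₗ f 0) q := by
      show (t.φ A a 0 + (LW d P Q 0).subtype ∘ₗ f 0) q + κ 0 • _ = _
      rw [k0, zero_smul, add_zero]
    have h5 : ψ 0 q = (t.γ A a 0 + (LW d P Q (0 + 1)).subtype ∘ₗ g 0) q := by
      show (t.γ A a 0 + (LW d P Q (0 + 1)).subtype ∘ₗ g 0) q + κ 0 • _ = _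
      rw [k0, zero_smul, add_zero]
    rw [h1, h2, h4, h5]
    have h6 : (t.η A a 0 + zV z 0) q = 0 := h3
    rw [h6]
    rfl
  · have hT : TT β (d + 1 - 2 * (j + 1)) ≠ 0 := by
      have := TT_ne_zero d a β h.iA.inj hrec (d - 2 * (j + 1)) (by omega)
      rwa [show d - 2 * (j + 1) + 1 = d + 1 - 2 * (j + 1) by omega] at this
    have k1 : κ (j + 1) = (TT β (d + 1 - 2 * (j + 1)))⁻¹ := if_neg (by omega)
    have h1 : cV (xc p) (j + 1) q = 0 := rfl
    have h2 : hV (xh p) (j + 1) q = ζ j q := by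
      show ((xh p j q : MV d P Q j) : V) = _
      have : xh p j = (ζ j).codRestrict _ (hζ j) := by unfold xh; rw [dif_pos (by omega)]
      rw [this]
      rfl
    have h4 : φ (j + 1) q = (t.φ A a (j + 1) + (LW d P Q (j + 1)).subtype ∘ₗ f (j + 1)) q +
        κ (j + 1) • (x (j + 1) • (t.c (j + 1) q : V) + y (j + 1) • A (t.c (j + 1) q : V)) := rfl
    have h5 : ψ (j + 1) q = (t.γ A a (j + 1) + (LW d P Q (j + 1 + 1)).subtype ∘ₗ g (j + 1)) q +
        κ (j + 1) • (u (j + 1) • quad A d a (j + 1) (t.c (j + 1) q : V)) := rfl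
    have h6 : ζ j q = (t.η A a (j + 1) + zV z (j + 1)) q + κ (j + 1) • (t.c (j + 1) q : V) := rfl
    have h7 : ((LW d P Q (j + 1)).subtype ∘ₗ t.c (j + 1)) q = (t.c (j + 1) q : V) := rfl
    have hr := hxyu (j + 1) (by omega) (by omega) s hjs (t.c (j + 1) q : V)
    have hr' : aeval A (str a (j + 1) s) (t.c (j + 1) q : V) =
        κ (j + 1) • (TT β (d + 1 - 2 * (j + 1)) • aeval A (str a (j + 1) s) (t.c (j + 1) q : V)) := by
      rw [k1, smul_smul, inv_mul_cancel₀ hT, one_smul]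
    rw [h1, h2, h4, h5, h6, h7, hr', hr]
    simp only [map_add, map_zero, zero_add, smul_add, map_smul, Nat.add_sub_cancel]
    module

theorem givenX_unique (h : Sys A B d a P d b Q) {β : K}
    (hrec : ∀ i, i + 3 ≤ d → a i - a (i + 3) = (β + 1) * (a (i + 1) - a (i + 2)))
    (p : ParX (LW d P Q) (MV d P Q) d) (hX : GivenX A d a β p 0) : p = 0 := by
  rw [givenX_iff] at hX
  have e0 : ∀ (v : V) (j : ℕ), aeval A (str a j 0) v = v := by
    intro v j; rw [str_zero, map_one]; rfl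
  have t0 : TT β (0 - 1) = 0 := rfl
  have t0' : TT β (1 - 1) = 0 := rfl
  have t1 : TT β (2 - 1) = 1 := rfl
  -- the components at `s = 0`
  have hc : ∀ q : LW d P Q 0, xc p q = 0 := by
    intro q
    have h1 := hX 0 0 (by omega) q
    have h2 : hV (xh p) 0 q = 0 := rfl
    rw [AA_zero, t0, zero_smul, zero_smul, add_zero, add_zero, e0, e0, h2, map_zero, smul_zero,
      add_zero] at h1
    exact Subtype.ext h1.symm
  have hh : ∀ j, 2 * (j + 1) ≤ d → ∀ q : LW d P Q (j + 1), xh p j q = 0 := by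
    intro j hj q
    have h1 := hX (j + 1) 0 (by omega) q
    have h2 : cV (xc p) (j + 1) q = 0 := rfl
    rw [AA_zero, t0, zero_smul, zero_smul, add_zero, add_zero, h2, map_zero, zero_add, e0,
      e0] at h1
    have hT : TT β (d + 1 - 2 * (j + 1) - 0) ≠ 0 := by
      have := TT_ne_zero d a β h.iA.inj hrec (d - 2 * (j + 1)) (by omega)
      rwa [show d - 2 * (j + 1) + 1 = d + 1 - 2 * (j + 1) - 0 by omega] at this
    have h3 : ((xh p j q : MV d P Q j) : V) = 0 :=
      (smul_eq_zero.mp h1.symm).resolve_left hT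
    exact Subtype.ext h3
  have hcV : ∀ j (q : LW d P Q j), cV (xc p) j q = 0 := by
    intro j q
    rcases j with _ | j
    · show ((xc p q : LW d P Q 0) : V) = 0
      rw [hc q]; rfl
    · rfl
  have hhV : ∀ j (q : LW d P Q j), 2 * j ≤ d → hV (xh p) j q = 0 := by
    intro j q hj
    rcases j with _ | j
    · rfl
    · show ((xh p j q : MV d P Q j) : V) = 0
      rw [hh j hj q]; rfl
  have hf : ∀ j, 2 * j + 1 ≤ d → ∀ q : LW d P Q j, xf p j q = 0 := by
    intro j hj q
    have h1 := hX j 1 (by omega) q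
    rw [hcV, hhV j q (by omega), t0', zero_smul, map_zero, map_zero, zero_add, add_zero,
      smul_zero, add_zero, show 1 - 1 = 0 from rfl, e0] at h1
    have h3 : ((xf p j q : MV d P Q j) : V) = 0 :=
      (smul_eq_zero.mp h1.symm).resolve_left (AA_one_ne h.iA j hj)
    exact Subtype.ext h3
  have hg : ∀ j, 2 * j + 2 ≤ d → ∀ q : LW d P Q j, xg p j q = 0 := by
    intro j hj q
    have h1 := hX j 2 (by omega) q
    have h2 : ((fun j => (MV d P Q j).subtype ∘ₗ xf p j) j : LW d P Q j →ₗ[K] V) q = 0 := by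
      show ((xf p j q : MV d P Q j) : V) = 0
      rw [hf j (by omega) q]; rfl
    rw [hcV, hhV j q (by omega), h2, t1, map_zero, map_zero, map_zero, zero_add, smul_zero,
      smul_zero, zero_add, add_zero, one_smul, show 2 - 2 = 0 from rfl, e0] at h1
    exact Subtype.ext h1.symm
  refine Prod.ext (LinearMap.ext fun q => hc q) (Prod.ext (funext fun j => ?_)
    (Prod.ext (funext fun j => ?_) (funext fun j => ?_)))
  · refine LinearMap.ext fun q => ?_
    have h6 := hf j (by have := j.2; omega) q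
    unfold xf at h6
    rwa [dif_pos j.2] at h6
  · refine LinearMap.ext fun q => ?_
    have h6 := hg j (by have := j.2; omega) q
    unfold xg at h6
    rwa [dif_pos j.2] at h6
  · refine LinearMap.ext fun q => ?_
    have h6 := hh j (by have := j.2; omega) q
    unfold xh at h6
    rwa [dif_pos j.2] at h6

end Pool.Agent.H370.XT
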