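import Pool.Agent.H370.XT.Rel

/-! Every map with the two conditions is given by the formula. -/

set_option autoImplicit false

namespace Pool.Agent.H370.XT

open Polynomial Module Pool.Agent.Helper9.TD Pool.Agent.R841.TD

variable {K : Type*} [Field K] {V : Type*} [AddCommGroup V] [Module K V]

variable {A B : Module.End K V} {d : ℕ} {a b : ℕ → K} {P Q : ℕ → Module.End K V}
  {X : Module.End K V} {c : ∀ l, ℕ → (V →ₗ[K] LW d P Q l)}

/-- shift of a family of maps from the spaces `L_{j+1}` -/
def sh1 (F : ∀ j, LW d P Q (j + 1) →ₗ[K] V) : ∀ j, LW d P Q j →ₗ[K] V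
  | 0 => 0
  | (j + 1) => F j

/-- shift of a family of maps from the spaces `L_{j+2}` -/
def sh2 (F : ∀ j, LW d P Q (j + 2) →ₗ[K] V) : ∀ j, LW d P Q j →ₗ[K] V
  | 0 => 0
  | 1 => 0
  | (j + 2) => F j

/-- The parameters of the explicit maps. -/
structure Par7 (d : ℕ) (P Q : ℕ → Module.End K V) where
  c : ∀ j, LW d P Q j →ₗ[K] LW d P Q j
  f : ∀ j, LW d P Q j →ₗ[K] LW d P Q j
  e : ∀ j, LW d P Q j →ₗ[K] LW d P Q j
  p : ∀ j, LW d P Q j →ₗ[K] LW d P Q (j + 1)
  g : ∀ j, LW d P Q j →ₗ[K] LW d P Q (j + 1)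
  k : ∀ j, LW d P Q j →ₗ[K] LW d P Q (j + 2)
  w : ∀ j, LW d P Q (j + 1) →ₗ[K] LW d P Q j
  h : ∀ j, LW d P Q (j + 1) →ₗ[K] LW d P Q j
  m : ∀ j, LW d P Q (j + 2) →ₗ[K] LW d P Q j

/-- first target -/
noncomputable def Par7.φ (A : Module.End K V) (a : ℕ → K) (t : Par7 d P Q) (j : ℕ) :
    LW d P Q j →ₗ[K] V :=
  A ∘ₗ (LW d P Q j).subtype ∘ₗ t.f j + (LW d P Q (j + 1)).subtype ∘ₗ t.p j +
    sh1 (fun i => quad A d a i ∘ₗ (LW d P Q i).subtype ∘ₗ t.w i) j

/-- second target -/
noncomputable def Par7.γ (A : Module.End K V) (a : ℕ → K) (t : Par7 d P Q) (j : ℕ) :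
    LW d P Q j →ₗ[K] V :=
  quad A d a j ∘ₗ (LW d P Q j).subtype ∘ₗ t.e j + A ∘ₗ (LW d P Q (j + 1)).subtype ∘ₗ t.g j +
    (LW d P Q (j + 2)).subtype ∘ₗ t.k j

/-- third target -/
noncomputable def Par7.η (A : Module.End K V) (a : ℕ → K) (t : Par7 d P Q) (j : ℕ) :
    LW d P Q j →ₗ[K] V :=
  sh1 (fun i => A ∘ₗ (LW d P Q i).subtype ∘ₗ t.h i) j +
    sh2 (fun i => quad A d a i ∘ₗ (LW d P Q i).subtype ∘ₗ t.m i) j

/-- The general formula, for maps into `V`. -/
def FmlX (A : Module.End K V) (d : ℕ) (a : ℕ → K) (P Q : ℕ → Module.End K V) (β : K)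
    (c f g z : ∀ j, LW d P Q j →ₗ[K] V) (X : Module.End K V) : Prop :=
  ∀ j s, 2 * j + s ≤ d → ∀ q : LW d P Q j, X (aeval A (str a j s) (q : V)) =
    aeval A (str a j s) (c j q) +
    AA d a j s • aeval A (str a j (s - 1)) (f j q) +
    TT β (s - 1) • aeval A (str a (j + 1) (s - 2)) (g j q) +
    TT β (d + 1 - 2 * j - s) • aeval A (str a (j - 1) s) (z j q)

theorem Sys.exists_FmlX (h : Sys A B d a P d b Q) (β : K)
    (c f g z : ∀ j, LW d P Q j →ₗ[K] V) : ∃ X : Module.End K V, FmlX A d a P Q β c f g z X := by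
  obtain ⟨X, hX⟩ := Sys.exists_map h (W := V) (fun j s =>
    aeval A (str a j s) ∘ₗ c j + AA d a j s • (aeval A (str a j (s - 1)) ∘ₗ f j) +
    TT β (s - 1) • (aeval A (str a (j + 1) (s - 2)) ∘ₗ g j) +
    TT β (d + 1 - 2 * j - s) • (aeval A (str a (j - 1) s) ∘ₗ z j))
  exact ⟨X, fun j s hjs q => hX j s hjs q⟩

theorem FmlX.SX (h : Sys A B d a P d b Q) (β : K)
    (hrec : ∀ i, i + 3 ≤ d → a i - a (i + 3) = (β + 1) * (a (i + 1) - a (i + 2)))
    (c f g z : ∀ j, LW d P Q j →ₗ[K] V) (hc : ∀ j q, c j q ∈ LW d P Q j)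
    (hf : ∀ j q, f j q ∈ MV d P Q j) (hg : ∀ j q, g j q ∈ MV d P Q (j + 1))
    (hz : ∀ j q, z j q ∈ MV d P Q (j - 1)) (hz0 : ∀ q, z 0 q = 0)
    (hX : FmlX A d a P Q β c f g z X) : SX d P Q X := by
  classical
  let ext : (∀ j, LW d P Q j →ₗ[K] V) → ℕ → V → V :=
    fun F j v => if hv : v ∈ LW d P Q j then F j ⟨v, hv⟩ else 0
  have e : ∀ F j, ∀ q (hq : q ∈ LW d P Q j), ext F j q = F j ⟨q, hq⟩ :=
    fun F j q hq => dif_pos hq
  refine Sys.SX_of_formula h β hrec (ext c) (ext f) (ext g) (ext z) ?_ ?_ ?_ ?_ ?_ ?_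
  · intro j q hq; rw [e c j q hq]; exact hc j _
  · intro j q hq; rw [e f j q hq]; exact hf j _
  · intro j q hq; rw [e g j q hq]; exact hg j _
  · intro j q hq; rw [e z j q hq]; exact hz j _
  · intro q hq; rw [e z 0 q hq]; exact hz0 _
  · intro j s hjs q hq
    rw [e c j q hq, e f j q hq, e g j q hq, e z j q hq]
    exact hX j s hjs ⟨q, hq⟩

theorem Par7.φ_mem (h : Sys A B d a P d b Q) (t : Par7 d P Q) (j : ℕ) (q : LW d P Q j) :
    t.φ A a j q ∈ MV d P Q j := by
  refine Submodule.add_mem _ (Submodule.add_mem _ (A_mem h j _ (t.f j q).2)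
    (LW_succ_le_MV j (t.p j q).2)) ?_
  rcases j with _ | j
  · exact Submodule.zero_mem _
  · exact quad_mem h j _ (t.w j q).2

theorem Par7.γ_mem (h : Sys A B d a P d b Q) (t : Par7 d P Q) (j : ℕ) (q : LW d P Q j) :
    t.γ A a j q ∈ MV d P Q (j + 1) :=
  Submodule.add_mem _ (Submodule.add_mem _ (quad_mem h j _ (t.e j q).2)
    (A_mem h (j + 1) _ (t.g j q).2)) (LW_succ_le_MV (j + 1) (t.k j q).2)

theorem Par7.η_mem (h : Sys A B d a P d b Q) (t : Par7 d P Q) (j : ℕ) (q : LW d P Q j) :
    t.η A a j q ∈ MV d P Q (j - 1) := by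
  refine Submodule.add_mem _ ?_ ?_
  · rcases j with _ | j
    · exact Submodule.zero_mem _
    · exact A_mem h j _ (t.h j q).2
  · rcases j with _ | _ | j
    · exact Submodule.zero_mem _
    · exact Submodule.zero_mem _
    · exact quad_mem h j _ (t.m j q).2

/-- the vector `F_j q` or `0`, with the target index as a variable -/
noncomputable def pick (l l' : ℕ) (r : V) : V := if l = l' then r else 0

/-- the symbol of the explicit map -/
theorem sy_par (h : Sys A B d a P d b Q) (hc : Coord A d a P Q c) (β : K) (t : Par7 d P Q)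
    (hX : FmlX A d a P Q β (fun j => (LW d P Q j).subtype ∘ₗ t.c j) (t.φ A a) (t.γ A a)
      (t.η A a) X) (j l s : ℕ) (hjs : 2 * j + s ≤ d) (hl : l + j + s ≤ d) (q : LW d P Q j) :
    (sy A a c X j l s (q : V) : V) =
      pick l j ((t.c j q : V) + AA d a j s • (t.f j q : V) + TT β (s - 1) • (t.e j q : V)) +
      pick l (j + 1) (AA d a j s • (t.p j q : V) + TT β (s - 1) • (t.g j q : V)) +
      pick l (j + 2) (TT β (s - 1) • (t.k j q : V)) +
      pick (l + 1) j (AA d a j s • sh1 (fun i => (LW d P Q i).subtype ∘ₗ t.w i) j q +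
        TT β (d + 1 - 2 * j - s) • sh1 (fun i => (LW d P Q i).subtype ∘ₗ t.h i) j q) +
      pick (l + 2) j (TT β (d + 1 - 2 * j - s) •
        sh2 (fun i => (LW d P Q i).subtype ∘ₗ t.m i) j q) := by
  have hFl : ∀ i, ∀ r ∈ LW d P Q i, Fl d Q i r := fun i r hr => (mem_LW.mp hr).1
  -- first term
  have T1 : (cc c l (j + s) (aeval A (str a j s) (t.c j q : V)) : V) =
      pick l j (t.c j q : V) := by
    rw [cc_str h hc l j j _ (hFl j _ (t.c j q).2) s (by omega), cc_base hc h l j _ (t.c j q).2
      (by omega)]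
    rfl
  -- second term
  have T2 : (AA d a j s • cc c l (j + s) (aeval A (str a j (s - 1)) (t.φ A a j q)) : V) =
      pick l j (AA d a j s • (t.f j q : V)) + pick l (j + 1) (AA d a j s • (t.p j q : V)) +
      pick (l + 1) j (AA d a j s • sh1 (fun i => (LW d P Q i).subtype ∘ₗ t.w i) j q) := by
    rcases s with _ | s
    · rw [AA_zero]
      simp [pick]
    · have hφ : Fl d Q (j + 1) (t.φ A a j q) := (mem_MV.mp (t.φ_mem h j q)).1
      have e0 : cc c l (j + (s + 1)) (aeval A (str a j (s + 1 - 1)) (t.φ A a j q)) =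
          cc c l (j + 1) (t.φ A a j q) := by
        have := cc_str h hc l (j + 1) j _ hφ s (by omega)
        rw [show j + 1 + s = j + (s + 1) by omega] at this
        exact this
      rw [e0]
      have e1 : t.φ A a j q = A (t.f j q : V) + (t.p j q : V) +
          sh1 (fun i => quad A d a i ∘ₗ (LW d P Q i).subtype ∘ₗ t.w i) j q := rfl
      rw [e1, map_add, map_add, Submodule.coe_add, Submodule.coe_add, smul_add, smul_add]
      congr 1
      · congr 1
        · rw [hc.F3 h j _ (hFl j _ (t.f j q).2) l (by omega), cc_base hc h l j _ (t.f j q).2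
            (by omega)]
          unfold pick
          split_ifs
          · rfl
          · rw [smul_zero]
        · rw [cc_base hc h l (j + 1) _ (t.p j q).2 (by omega)]
          unfold pick
          split_ifs
          · rfl
          · rw [smul_zero]
      · rcases j with _ | j
        · have z1 : sh1 (fun i => quad A d a i ∘ₗ (LW d P Q i).subtype ∘ₗ t.w i) 0 q = 0 := rfl
          rw [z1, map_zero]
          unfold pick
          rw [if_neg (by omega)]
          exact smul_zero _
        · have z1 : sh1 (fun i => quad A d a i ∘ₗ (LW d P Q i).subtype ∘ₗ t.w i) (j + 1) q =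
            quad A d a j (t.w j q : V) := rfl
          have z2 : sh1 (fun i => (LW d P Q i).subtype ∘ₗ t.w i) (j + 1) q = (t.w j q : V) := rfl
          rw [z1, z2, cc_quad h hc l j j _ (hFl j _ (t.w j q).2) (by omega),
            cc_base hc h l j _ (t.w j q).2 (by omega)]
          unfold pick
          by_cases hlj : l = j
          · rw [if_pos hlj, if_pos (by omega)]
          · rw [if_neg hlj, if_neg (by omega), smul_zero]
  -- third term
  have T3 : (TT β (s - 1) • cc c l (j + s) (aeval A (str a (j + 1) (s - 2)) (t.γ A a j q)) : V) =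
      pick l j (TT β (s - 1) • (t.e j q : V)) + pick l (j + 1) (TT β (s - 1) • (t.g j q : V)) +
      pick l (j + 2) (TT β (s - 1) • (t.k j q : V)) := by
    rcases s with _ | _ | s
    · have z : TT β (0 - 1) = 0 := rfl
      rw [z]
      simp [pick]
    · have z : TT β (0 + 1 - 1) = 0 := rfl
      rw [z]
      simp [pick]
    · have hγ : Fl d Q (j + 2) (t.γ A a j q) := (mem_MV.mp (t.γ_mem h j q)).1
      have e0 : cc c l (j + (s + 1 + 1)) (aeval A (str a (j + 1) (s + 1 + 1 - 2)) (t.γ A a j q)) =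
          cc c l (j + 2) (t.γ A a j q) := by
        have := cc_str h hc l (j + 2) (j + 1) _ hγ s (by omega)
        rw [show j + 2 + s = j + (s + 1 + 1) by omega] at this
        exact this
      rw [e0]
      have e1 : t.γ A a j q = quad A d a j (t.e j q : V) + A (t.g j q : V) + (t.k j q : V) := rfl
      rw [e1, map_add, map_add, Submodule.coe_add, Submodule.coe_add, smul_add, smul_add]
      congr 1
      · congr 1
        · rw [cc_quad h hc l j j _ (hFl j _ (t.e j q).2) (by omega), cc_base hc h l j _ (t.e j q).2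
            (by omega)]
          unfold pick
          split_ifs
          · rfl
          · rw [smul_zero]
        · rw [hc.F3 h (j + 1) _ (hFl (j + 1) _ (t.g j q).2) l (by omega),
            cc_base hc h l (j + 1) _ (t.g j q).2 (by omega)]
          unfold pick
          split_ifs
          · rfl
          · rw [smul_zero]
      · rw [cc_base hc h l (j + 2) _ (t.k j q).2 (by omega)]
        unfold pick
        split_ifs
        · rfl
        · rw [smul_zero]
  -- fourth term
  have T4 : (TT β (d + 1 - 2 * j - s) • cc c l (j + s) (aeval A (str a (j - 1) s) (t.η A a j q)) : V) =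
      pick (l + 1) j (TT β (d + 1 - 2 * j - s) •
        sh1 (fun i => (LW d P Q i).subtype ∘ₗ t.h i) j q) +
      pick (l + 2) j (TT β (d + 1 - 2 * j - s) •
        sh2 (fun i => (LW d P Q i).subtype ∘ₗ t.m i) j q) := by
    rcases j with _ | j
    · have z1 : t.η A a 0 q = 0 := by
        show (0 : V) + 0 = 0
        rw [add_zero]
      rw [z1, map_zero, map_zero]
      unfold pick
      rw [if_neg (by omega), if_neg (by omega), add_zero]
      exact smul_zero _
    · have hη : Fl d Q (j + 1) (t.η A a (j + 1) q) := (mem_MV.mp (t.η_mem h (j + 1) q)).1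
      rw [cc_str h hc l (j + 1) (j + 1 - 1) _ hη s (by omega)]
      have e1 : t.η A a (j + 1) q = A (t.h j q : V) +
          sh2 (fun i => quad A d a i ∘ₗ (LW d P Q i).subtype ∘ₗ t.m i) (j + 1) q := rfl
      rw [e1, map_add, Submodule.coe_add, smul_add]
      congr 1
      · rw [hc.F3 h j _ (hFl j _ (t.h j q).2) l (by omega), cc_base hc h l j _ (t.h j q).2
          (by omega)]
        have z2 : sh1 (fun i => (LW d P Q i).subtype ∘ₗ t.h i) (j + 1) q = (t.h j q : V) := rfl
        rw [z2]
        unfold pick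
        by_cases hlj : l = j
        · rw [if_pos hlj, if_pos (by omega)]
        · rw [if_neg hlj, if_neg (by omega), smul_zero]
      · rcases j with _ | j
        · have z1 : sh2 (fun i => quad A d a i ∘ₗ (LW d P Q i).subtype ∘ₗ t.m i) (0 + 1) q = 0 := rfl
          rw [z1, map_zero]
          unfold pick
          rw [if_neg (by omega)]
          exact smul_zero _
        · have z1 : sh2 (fun i => quad A d a i ∘ₗ (LW d P Q i).subtype ∘ₗ t.m i) (j + 1 + 1) q =
            quad A d a j (t.m j q : V) := rfl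
          have z2 : sh2 (fun i => (LW d P Q i).subtype ∘ₗ t.m i) (j + 1 + 1) q = (t.m j q : V) := rfl
          rw [z1, z2, cc_quad h hc l j j _ (hFl j _ (t.m j q).2) (by omega),
            cc_base hc h l j _ (t.m j q).2 (by omega)]
          unfold pick
          by_cases hlj : l = j
          · rw [if_pos hlj, if_pos (by omega)]
          · rw [if_neg hlj, if_neg (by omega), smul_zero]
  have hpick : ∀ (x y : ℕ) (u v : V), pick x y (u + v) = pick x y u + pick x y v := by
    intro x y u v
    unfold pick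
    split_ifs
    · rfl
    · rw [add_zero]
  unfold sy
  rw [hX j s hjs q, map_add, map_add, map_add, map_smul, map_smul, map_smul, Submodule.coe_add,
    Submodule.coe_add, Submodule.coe_add, Submodule.coe_smul, Submodule.coe_smul,
    Submodule.coe_smul, T2, T3, T4]
  have T1' : (cc c l (j + s) (aeval A (str a j s) (((LW d P Q j).subtype ∘ₗ t.c j) q)) : V) =
      pick l j (t.c j q : V) := T1
  rw [T1']
  simp only [hpick]
  abel

end Pool.Agent.H370.XT
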