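import Pool.Agent.H370.G.R_seed8.R841.TD.Dim

/-! Maps that preserve the flag and are tridiagonal: membership. -/

set_option autoImplicit false

namespace Pool.Agent.H370.XT

open Polynomial Module Pool.Agent.Helper9.TD Pool.Agent.R841.TD

variable {K : Type*} [Field K] {V : Type*} [AddCommGroup V] [Module K V]

/-- the two conditions on `X`, in terms of the projections onto the eigenspaces -/
structure SX (d : ℕ) (P Q : ℕ → Module.End K V) (X : Module.End K V) : Prop where
  low : ∀ i ≤ d, ∀ k ≤ d, i < k → ∀ v, Q k (X (Q i v)) = 0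
  tri : ∀ i ≤ d, ∀ k ≤ d, (i + 1 < k ∨ k + 1 < i) → ∀ v, P k (X (P i v)) = 0

/-- the conditions on the spaces `U_i` -/
def UX (d : ℕ) (P Q : ℕ → Module.End K V) (X : Module.End K V) : Prop :=
  ∀ i ≤ d, ∀ v ∈ NN d P d Q i i,
    (∀ k ≤ d, i < k → Q k (X v) = 0) ∧ (∀ k ≤ d, k + 1 < i → P k (X v) = 0)

variable {A B : Module.End K V} {d : ℕ} {a b : ℕ → K} {P Q : ℕ → Module.End K V}
  {X : Module.End K V}

theorem SX.F (iB : Idem B d b Q) (hX : SX d P Q X) (i : ℕ) (v : V)
    (hv : ∀ k ≤ d, i < k → Q k v = 0) (k : ℕ) (hk : k ≤ d) (hik : i < k) : Q k (X v) = 0 := by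
  rw [← iB.sum v, map_sum, map_sum]
  refine Finset.sum_eq_zero fun l hl => ?_
  have hl' : l ≤ d := by simpa [Nat.lt_succ_iff] using hl
  by_cases h : i < l
  · rw [hv l hl' h, map_zero, map_zero]
  · exact hX.low l hl' k hk (by omega) v

theorem Sys.UX_F (h : Sys A B d a P d b Q) (h1 : UX d P Q X) (i : ℕ) : i ≤ d → ∀ v : V,
    (∀ k ≤ d, i < k → Q k v = 0) → ∀ k ≤ d, i < k → Q k (X v) = 0 := by
  induction i with
  | zero =>
    intro hi v hv
    exact (h1 0 hi v (mem_NN.mpr ⟨hv, fun k _ hk => by omega⟩)).1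
  | succ i ih =>
    intro hi v hv k hk hik
    obtain ⟨u, w, huw, hu, hw⟩ := Sys.split h i v
    have hw' : w ∈ NN d P d Q (i + 1) (i + 1) := by
      refine mem_NN.mpr ⟨fun l hl hil => ?_, hw⟩
      have : w = v - u := by rw [huw]; abel
      rw [this, map_sub, hv l hl hil, hu l hl (by omega), sub_zero]
    rw [huw, map_add, map_add, ih (by omega) u hu k hk (by omega),
      (h1 (i + 1) hi w hw').1 k hk hik, add_zero]

theorem Sys.UX_G (h : Sys A B d a P d b Q) (h1 : UX d P Q X) (n : ℕ) : ∀ i, i + n = d + 1 →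
    ∀ v : V, (∀ k ≤ d, k < i → P k v = 0) → ∀ k ≤ d, k + 1 < i → P k (X v) = 0 := by
  induction n with
  | zero =>
    intro i hi v hv k hk hki
    have : v = 0 := h.iA.eq_zero v fun k hk => hv k hk (by omega)
    rw [this, map_zero, map_zero]
  | succ n ih =>
    intro i hi v hv k hk hki
    obtain ⟨u, w, huw, hu, hw⟩ := Sys.split h i v
    have hu' : u ∈ NN d P d Q i i := by
      refine mem_NN.mpr ⟨hu, fun l hl hil => ?_⟩
      have : u = v - w := by rw [huw]; abel
      rw [this, map_sub, hv l hl hil, hw l hl (by omega), sub_zero]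
    rw [huw, map_add, map_add, (h1 i (by omega) u hu').2 k hk hki,
      ih (i + 1) (by omega) w hw k hk (by omega), add_zero]

theorem Sys.SX_of_UX (h : Sys A B d a P d b Q) (h1 : UX d P Q X)
    (h2 : UX d (fun i => P (d - i)) Q X) : SX d P Q X where
  low := fun i hi k hk hik v => by
    refine Sys.UX_F h h1 i hi (Q i v) (fun l hl hil => ?_) k hk hik
    rw [h.iB.orth l hl i hi, if_neg (by omega)]
  tri := fun i hi k hk hik v => by
    rcases hik with hik | hik
    · have h3 := Sys.UX_G h.revA h2 (i + 1) (d - i) (by omega) (P i v) (fun l hl hli => by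
        show P (d - l) (P i v) = 0
        rw [h.iA.orth (d - l) (by omega) i hi, if_neg (by omega)]) (d - k) (by omega) (by omega)
      have h4 : P (d - (d - k)) (X (P i v)) = 0 := h3
      rwa [Nat.sub_sub_self hk] at h4
    · refine Sys.UX_G h h1 (d + 1 - i) i (by omega) (P i v) (fun l hl hli => ?_) k hk hik
      rw [h.iA.orth l hl i hi, if_neg (by omega)]

/-- `(V*_0 + … + V*_{j+1}) ∩ (V_j + … + V_{d-j})` -/
def MV (d : ℕ) (P Q : ℕ → Module.End K V) (j : ℕ) : Submodule K V :=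
  NN d P d Q (j + 1) j ⊓ NN d (fun i => P (d - i)) d Q (j + 1) j

theorem mem_MV {j : ℕ} {v : V} :
    v ∈ MV d P Q j ↔ (∀ k ≤ d, j + 1 < k → Q k v = 0) ∧ (∀ k ≤ d, k < j → P k v = 0) ∧
      (∀ k ≤ d, k < j → P (d - k) v = 0) := by
  rw [MV, Submodule.mem_inf, mem_NN, mem_NN]
  tauto

theorem MV_rev (d : ℕ) (P Q : ℕ → Module.End K V) (j : ℕ) :
    MV d (fun i => P (d - i)) Q j = MV d P Q j := by
  ext v
  rw [mem_MV, mem_MV]
  constructor
  · rintro ⟨h1, h2, h3⟩
    refine ⟨h1, fun k hk hkj => ?_, h2⟩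
    have := h3 k hk hkj
    rwa [Nat.sub_sub_self hk] at this
  · rintro ⟨h1, h2, h3⟩
    refine ⟨h1, h3, fun k hk hkj => ?_⟩
    have := h2 k hk hkj
    show P (d - (d - k)) v = 0
    rwa [Nat.sub_sub_self hk]

theorem Sys.aeval_mem' (h : Sys A B d a P d b Q) (m j s : ℕ) (v : V) (hv : v ∈ NN d P d Q m j) :
    aeval A (str a j s) v ∈ NN d P d Q (m + s) (j + s) := by
  rw [mem_NN] at hv ⊢
  refine ⟨fun k hk hmk => ?_, fun k hk hkj => ?_⟩
  · exact Q_str h.iB h.triB a j m v hv.1 s k hk (by omega)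
  · rw [P_aeval h.iA k hk]
    by_cases hk' : k < j
    · rw [hv.2 k hk hk', smul_zero]
    · rw [str_eval, Finset.prod_eq_zero (i := k - j) (Finset.mem_range.mpr (by omega)), zero_smul]
      rw [show j + (k - j) = k by omega, sub_self]

theorem NN_mono {m m' j j' : ℕ} (hm : m ≤ m') (hj : j' ≤ j) : NN d P d Q m j ≤ NN d P d Q m' j' := by
  intro v hv
  rw [mem_NN] at hv ⊢
  exact ⟨fun k hk hmk => hv.1 k hk (by omega), fun k hk hkj => hv.2 k hk (by omega)⟩

theorem Sys.UX_of_formula (h : Sys A B d a P d b Q) (c f g z : ℕ → V → V)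
    (hc : ∀ j, ∀ q ∈ LW d P Q j, c j q ∈ LW d P Q j)
    (hf : ∀ j, ∀ q ∈ LW d P Q j, f j q ∈ MV d P Q j)
    (hg : ∀ j, ∀ q ∈ LW d P Q j, g j q ∈ MV d P Q (j + 1))
    (hz : ∀ j, ∀ q ∈ LW d P Q j, z j q ∈ MV d P Q (j - 1))
    (hz0 : ∀ q ∈ LW d P Q 0, z 0 q = 0) (c1 c2 c3 : ℕ → ℕ → K) (hc1 : ∀ j, c1 j 0 = 0)
    (hc2 : ∀ j s, s ≤ 1 → c2 j s = 0)
    (hX : ∀ j s, 2 * j + s ≤ d → ∀ q ∈ LW d P Q j, X (aeval A (str a j s) q) =
      aeval A (str a j s) (c j q) +
      c1 j s • aeval A (str a j (s - 1)) (f j q) + c2 j s • aeval A (str a (j + 1) (s - 2)) (g j q) +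
      c3 j s • aeval A (str a (j - 1) s) (z j q)) : UX d P Q X := by
  intro i hi v hv
  obtain ⟨q, hq, hqe⟩ := Sys.gen h i hi v hv
  have hterm : ∀ j, j ≤ i → i + j ≤ d →
      X (aeval A (str a j (i - j)) (q j)) ∈ NN d P d Q i (i - 1) := by
    intro j hji hij
    rw [hX j (i - j) (by omega) (q j) (hq j)]
    refine Submodule.add_mem _ (Submodule.add_mem _ (Submodule.add_mem _ ?_ ?_) ?_) ?_
    · have h1 := Sys.aeval_mem' h j j (i - j) _ (Submodule.mem_inf.mp (hc j _ (hq j))).1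
      exact NN_mono (by omega) (by omega) h1
    · by_cases hs : i - j = 0
      · rw [hs, hc1, zero_smul]; exact Submodule.zero_mem _
      · have h1 := Sys.aeval_mem' h (j + 1) j (i - j - 1) _
          (Submodule.mem_inf.mp (hf j _ (hq j))).1
        exact Submodule.smul_mem _ _ (NN_mono (by omega) (by omega) h1)
    · by_cases hs : i - j ≤ 1
      · rw [hc2 j _ hs, zero_smul]; exact Submodule.zero_mem _
      · have h1 := Sys.aeval_mem' h (j + 1 + 1) (j + 1) (i - j - 2) _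
          (Submodule.mem_inf.mp (hg j _ (hq j))).1
        exact Submodule.smul_mem _ _ (NN_mono (by omega) (by omega) h1)
    · by_cases hs : j = 0
      · subst hs
        rw [hz0 _ (hq 0), map_zero, smul_zero]; exact Submodule.zero_mem _
      · have h1 := Sys.aeval_mem' h (j - 1 + 1) (j - 1) (i - j) _
          (Submodule.mem_inf.mp (hz j _ (hq j))).1
        exact Submodule.smul_mem _ _ (NN_mono (by omega) (by omega) h1)
  have hXv : X v ∈ NN d P d Q i (i - 1) := by
    rw [hqe, map_sum]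
    refine Submodule.sum_mem _ fun j hj => ?_
    rw [Finset.mem_filter, Finset.mem_range] at hj
    exact hterm j (by omega) hj.2
  exact ⟨fun k hk hik => (mem_NN.mp hXv).1 k hk hik,
    fun k hk hik => (mem_NN.mp hXv).2 k hk (by omega)⟩

/-- the formula for the reversed strings follows from the one for the strings -/
theorem formula_rev' (β : K)
    (hrec : ∀ i, i + 3 ≤ d → a i - a (i + 3) = (β + 1) * (a (i + 1) - a (i + 2)))
    (j : ℕ) (q c x y z : V) (hz0 : j = 0 → z = 0)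
    (hX : ∀ s, 2 * j + s ≤ d → X (aeval A (str a j s) q) = aeval A (str a j s) c +
      AA d a j s • aeval A (str a j (s - 1)) x + TT β (s - 1) • aeval A (str a (j + 1) (s - 2)) y +
      TT β (d + 1 - 2 * j - s) • aeval A (str a (j - 1) s) z) (s : ℕ) (hs : 2 * j + s ≤ d) :
    X (aeval A (str (fun i => a (d - i)) j s) q) = aeval A (str (fun i => a (d - i)) j s) c +
      AA d a j s • aeval A (str (fun i => a (d - i)) j (s - 1)) x +
      TT β (s - 1) • aeval A (str (fun i => a (d - i)) (j + 1) (s - 2)) y +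
      TT β (d + 1 - 2 * j - s) • aeval A (str (fun i => a (d - i)) (j - 1) s) z := by
  obtain ⟨D, hD⟩ := poly_D d a β hrec
  obtain ⟨Ψ, hΨ⟩ := poly_Psi d a β hrec j (by omega)
  obtain ⟨E, hE⟩ : ∃ E : K[X] →ₗ[K] K[X], ∀ s, 2 * j + s ≤ d →
      (TT β (d + 1 - 2 * j - s) • aeval A (str a (j - 1) s) z = aeval A (E (str a j s)) z ∧
      TT β (d + 1 - 2 * j - s) • aeval A (str (fun i => a (d - i)) (j - 1) s) z =
        aeval A (E (str (fun i => a (d - i)) j s)) z) := by
    rcases j with _ | j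
    · refine ⟨0, fun s _ => ?_⟩
      rw [hz0 rfl]
      simp
    · obtain ⟨E, hE⟩ := poly_E d a β hrec j (by omega)
      refine ⟨E, fun s hs => ?_⟩
      rw [(hE s hs).1, (hE s hs).2, map_mul, map_mul, Module.End.mul_apply, Module.End.mul_apply,
        aeval_C, Module.algebraMap_end_apply, Module.algebraMap_end_apply, Nat.add_sub_cancel,
        show d + 1 - 2 * (j + 1) - s = d - 1 - 2 * j - s by omega]
      exact ⟨rfl, rfl⟩
  let ev : V → K[X] →ₗ[K] V := fun v => (LinearMap.applyₗ v) ∘ₗ (aeval A).toLinearMap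
  let L : K[X] →ₗ[K] V := X ∘ₗ ev q - ev c - ev x ∘ₗ Ψ - ev y ∘ₗ D - ev z ∘ₗ E
  have hL : ∀ p, L p = X (aeval A p q) - aeval A p c - aeval A (Ψ p) x - aeval A (D p) y -
    aeval A (E p) z := fun p => rfl
  have h0 : ∀ t ≤ d - 2 * j, L (str a j t) = 0 := by
    intro t ht
    rw [hL, hX t (by omega), (hE t (by omega)).1, (hΨ t (by omega)).1, (hD j t (by omega)).1,
      map_mul, map_mul, Module.End.mul_apply, Module.End.mul_apply, aeval_C, aeval_C,
      Module.algebraMap_end_apply, Module.algebraMap_end_apply]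
    abel
  have h1 := lin_zero a j L (d - 2 * j) h0 (str (fun i => a (d - i)) j s)
    (by rw [str_natDegree]; omega)
  rw [hL, (hΨ s hs).2, (hD j s hs).2, map_mul, map_mul, Module.End.mul_apply,
    Module.End.mul_apply, aeval_C, aeval_C, Module.algebraMap_end_apply,
    Module.algebraMap_end_apply, ← (hE s hs).2, sub_sub, sub_sub, sub_sub, sub_eq_zero] at h1
  rw [h1]
  abel

/-- Maps given by the formula satisfy the two conditions. -/
theorem Sys.SX_of_formula (h : Sys A B d a P d b Q) (β : K)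
    (hrec : ∀ i, i + 3 ≤ d → a i - a (i + 3) = (β + 1) * (a (i + 1) - a (i + 2)))
    (c f g z : ℕ → V → V)
    (hc : ∀ j, ∀ q ∈ LW d P Q j, c j q ∈ LW d P Q j)
    (hf : ∀ j, ∀ q ∈ LW d P Q j, f j q ∈ MV d P Q j)
    (hg : ∀ j, ∀ q ∈ LW d P Q j, g j q ∈ MV d P Q (j + 1))
    (hz : ∀ j, ∀ q ∈ LW d P Q j, z j q ∈ MV d P Q (j - 1))
    (hz0 : ∀ q ∈ LW d P Q 0, z 0 q = 0)
    (hX : ∀ j s, 2 * j + s ≤ d → ∀ q ∈ LW d P Q j, X (aeval A (str a j s) q) =
      aeval A (str a j s) (c j q) +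
      AA d a j s • aeval A (str a j (s - 1)) (f j q) +
      TT β (s - 1) • aeval A (str a (j + 1) (s - 2)) (g j q) +
      TT β (d + 1 - 2 * j - s) • aeval A (str a (j - 1) s) (z j q)) : SX d P Q X := by
  have hT : ∀ s, s ≤ 1 → TT β (s - 1) = 0 := by
    intro s hs
    rw [show s - 1 = 0 by omega]
    rfl
  refine Sys.SX_of_UX h ?_ ?_
  · exact Sys.UX_of_formula h c f g z hc hf hg hz hz0 (AA d a) (fun _ s => TT β (s - 1))
      (fun j s => TT β (d + 1 - 2 * j - s)) (AA_zero d a) (fun _ s hs => hT s hs) hX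
  · refine Sys.UX_of_formula h.revA c f g z ?_ ?_ ?_ ?_ ?_ (AA d a) (fun _ s => TT β (s - 1))
      (fun j s => TT β (d + 1 - 2 * j - s)) (AA_zero d a) (fun _ s hs => hT s hs) ?_
    · intro j q hq; rw [LW_rev] at hq ⊢; exact hc j q hq
    · intro j q hq; rw [LW_rev] at hq; rw [MV_rev]; exact hf j q hq
    · intro j q hq; rw [LW_rev] at hq; rw [MV_rev]; exact hg j q hq
    · intro j q hq; rw [LW_rev] at hq; rw [MV_rev]; exact hz j q hq
    · intro q hq; rw [LW_rev] at hq; exact hz0 q hq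
    · intro j s hjs q hq
      rw [LW_rev] at hq
      exact formula_rev' β hrec j q (c j q) (f j q) (g j q) (z j q)
        (fun hj => by subst hj; exact hz0 q hq) (fun t ht => hX j t ht q hq) s hjs

end Pool.Agent.H370.XT
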