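import Pool.Agent.H370.XT.Coord

/-! The recurrence of the symbols and its consequences. -/

set_option autoImplicit false

namespace Pool.Agent.H370.XT

open Polynomial Module Pool.Agent.Helper9.TD Pool.Agent.R841.TD

variable {K : Type*} [Field K] {V : Type*} [AddCommGroup V] [Module K V]

/-- membership in the flag -/
def Fl (d : ℕ) (Q : ℕ → Module.End K V) (i : ℕ) (v : V) : Prop := ∀ k ≤ d, i < k → Q k v = 0

variable {A B : Module.End K V} {d : ℕ} {a b : ℕ → K} {P Q : ℕ → Module.End K V}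
  {X : Module.End K V} {c : ∀ l, ℕ → (V →ₗ[K] LW d P Q l)}

theorem Fl.add {i : ℕ} {v w : V} (hv : Fl d Q i v) (hw : Fl d Q i w) : Fl d Q i (v + w) := by
  intro k hk hik; rw [map_add, hv k hk hik, hw k hk hik, add_zero]

theorem Fl.sub {i : ℕ} {v w : V} (hv : Fl d Q i v) (hw : Fl d Q i w) : Fl d Q i (v - w) := by
  intro k hk hik; rw [map_sub, hv k hk hik, hw k hk hik, sub_zero]

theorem Fl.smul {i : ℕ} {v : V} (r : K) (hv : Fl d Q i v) : Fl d Q i (r • v) := by
  intro k hk hik; rw [map_smul, hv k hk hik, smul_zero]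

theorem Fl.mono {i i' : ℕ} (hi : i ≤ i') {v : V} (hv : Fl d Q i v) : Fl d Q i' v :=
  fun k hk hik => hv k hk (by omega)

theorem Fl.mulA (h : Sys A B d a P d b Q) {i : ℕ} {v : V} (hv : Fl d Q i v) :
    Fl d Q (i + 1) (A v) := up_lemma h.iB h.triB i v hv

theorem Fl.mapX (h : Sys A B d a P d b Q) (hX : SX d P Q X) {i : ℕ} {v : V} (hv : Fl d Q i v) :
    Fl d Q i (X v) := fun k hk hik => hX.F h.iB i v hv k hk hik

theorem Fl.str (h : Sys A B d a P d b Q) {i : ℕ} {v : V} (hv : Fl d Q i v) (c : ℕ → K) (j s : ℕ) :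
    Fl d Q (i + s) (aeval A (str c j s) v) := Q_str h.iB h.triB c j i v hv s

theorem A_str (j s : ℕ) (q : V) : A (aeval A (str a j s) q) =
    aeval A (str a j (s + 1)) q + a (j + s) • aeval A (str a j s) q := by
  rw [str_succ, mul_comm, map_mul, Module.End.mul_apply]
  simp only [map_sub, aeval_X, aeval_C, LinearMap.sub_apply, Module.algebraMap_end_apply]
  abel

/-- the symbol of `X` -/
noncomputable def sy (A : Module.End K V) (a : ℕ → K) (c : ∀ l, ℕ → (V →ₗ[K] LW d P Q l))
    (X : Module.End K V) (j l s : ℕ) (q : V) : LW d P Q l :=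
  cc c l (j + s) (X (aeval A (str a j s) q))

/-- the recurrence of the symbol -/
theorem sy_rec (h : Sys A B d a P d b Q) (hc : Coord A d a P Q c) {β : K}
    (hrec : ∀ i, i + 3 ≤ d → a i - a (i + 3) = (β + 1) * (a (i + 1) - a (i + 2)))
    (hX : SX d P Q X) (j l s : ℕ) (q : V) (hq : q ∈ LW d P Q j) (hl : l + j + s + 3 ≤ d) :
    sy A a c X j l s q - (β + 1) • sy A a c X j l (s + 1) q +
      (β + 1) • sy A a c X j l (s + 2) q - sy A a c X j l (s + 3) q = 0 := by
  obtain ⟨γ, α, hα, ha⟩ := exists_ext d a β hrec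
  obtain ⟨ρ, hcub⟩ := cubic hα ha h.iA hX.tri
  have hqF : Fl d Q j q := (mem_LW.mp hq).1
  set i := j + s with hi
  set v := aeval A (str a j s) q with hv
  have hvF : Fl d Q i v := Fl.str h hqF a j s
  set v1 := aeval A (str a j (s + 1)) q with hv1
  set v2 := aeval A (str a j (s + 2)) q with hv2
  set v3 := aeval A (str a j (s + 3)) q with hv3
  have h1F : Fl d Q (i + 1) v1 := by
    have := Fl.str h hqF a j (s + 1); rwa [show j + (s + 1) = i + 1 by omega] at this
  have h2F : Fl d Q (i + 2) v2 := by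
    have := Fl.str h hqF a j (s + 2); rwa [show j + (s + 2) = i + 2 by omega] at this
  have eA1 : A v = v1 + a (j + s) • v := A_str j s q
  have eA2 : A v1 = v2 + a (j + (s + 1)) • v1 := A_str j (s + 1) q
  have eA3 : A v2 = v3 + a (j + (s + 2)) • v2 := A_str j (s + 2) q
  obtain ⟨w1, hw1, ew1⟩ : ∃ w, Fl d Q i w ∧ A v = v1 + w := ⟨_, hvF.smul _, eA1⟩
  obtain ⟨w2, hw2, ew2⟩ : ∃ w, Fl d Q (i + 1) w ∧ A (A v) = v2 + w := by
    refine ⟨a (j + (s + 1)) • v1 + A w1, (h1F.smul _).add (Fl.mulA h hw1), ?_⟩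
    rw [ew1, map_add, eA2]; abel
  obtain ⟨w3, hw3, ew3⟩ : ∃ w, Fl d Q (i + 2) w ∧ A (A (A v)) = v3 + w := by
    refine ⟨a (j + (s + 2)) • v2 + A w2, (h2F.smul _).add (Fl.mulA h hw2), ?_⟩
    rw [ew2, map_add, eA3]; abel
  have hXv : Fl d Q i (X v) := Fl.mapX h hX hvF
  have hXAv : Fl d Q (i + 1) (X (A v)) := Fl.mapX h hX (Fl.mulA h hvF)
  have hXAAv : Fl d Q (i + 2) (X (A (A v))) := Fl.mapX h hX (Fl.mulA h (Fl.mulA h hvF))
  have z1 : cc c l (i + 3) (A (A (A (X v)))) = cc c l i (X v) := by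
    rw [hc.F3 h (i + 2) _ (Fl.mulA h (Fl.mulA h hXv)) l (by omega),
      hc.F3 h (i + 1) _ (Fl.mulA h hXv) l (by omega), hc.F3 h i _ hXv l (by omega)]
  have z2 : cc c l (i + 3) (A (A (X (A v)))) = cc c l (i + 1) (X v1) := by
    rw [hc.F3 h (i + 2) _ (Fl.mulA h hXAv) l (by omega), hc.F3 h (i + 1) _ hXAv l (by omega), ew1,
      map_add, map_add, hc.F1 h i (by omega) (X w1) (Fl.mapX h hX hw1) l (i + 1) (by omega) (by omega),
      add_zero]
  have z3 : cc c l (i + 3) (A (X (A (A v)))) = cc c l (i + 2) (X v2) := by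
    rw [hc.F3 h (i + 2) _ hXAAv l (by omega), ew2, map_add, map_add,
      hc.F1 h (i + 1) (by omega) (X w2) (Fl.mapX h hX hw2) l (i + 2) (by omega) (by omega), add_zero]
  have z4 : cc c l (i + 3) (X (A (A (A v)))) = cc c l (i + 3) (X v3) := by
    rw [ew3, map_add, map_add,
      hc.F1 h (i + 2) (by omega) (X w3) (Fl.mapX h hX hw3) l (i + 3) (by omega) (by omega), add_zero]
  have hR : Fl d Q (i + 2) (γ • (A (A (X v)) - X (A (A v))) + ρ • (A (X v) - X (A v))) :=
    (((Fl.mulA h (Fl.mulA h hXv)).sub hXAAv).smul _).add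
      ((((Fl.mulA h hXv).sub hXAv).smul _).mono (by omega))
  have h4 := congrArg (cc c l (i + 3)) (hcub v)
  rw [hc.F1 h (i + 2) (by omega) _ hR l (i + 3) (by omega) (by omega)] at h4
  simp only [map_sub, map_add, map_smul, z1, z2, z3, z4] at h4
  exact h4

theorem sy_up (h : Sys A B d a P d b Q) (hc : Coord A d a P Q c) {β : K}
    (hrec : ∀ i, i + 3 ≤ d → a i - a (i + 3) = (β + 1) * (a (i + 1) - a (i + 2)))
    (hX : SX d P Q X) (j l : ℕ) (q : V) (hq : q ∈ LW d P Q j)
    (h0 : ∀ s ≤ 2, l + j + s ≤ d → sy A a c X j l s q = 0) :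
    ∀ s, l + j + s ≤ d → sy A a c X j l s q = 0 := by
  intro s
  induction s using Nat.strong_induction_on with
  | _ s ih =>
  intro hs
  by_cases hs2 : s ≤ 2
  · exact h0 s hs2 hs
  · obtain ⟨t, rfl⟩ : ∃ t, s = t + 3 := ⟨s - 3, by omega⟩
    have h1 := sy_rec h hc hrec hX j l t q hq (by omega)
    rw [ih t (by omega) (by omega), ih (t + 1) (by omega) (by omega),
      ih (t + 2) (by omega) (by omega), smul_zero, sub_zero, add_zero, zero_sub, neg_eq_zero] at h1
    exact h1

theorem sy_down (h : Sys A B d a P d b Q) (hc : Coord A d a P Q c) {β : K}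
    (hrec : ∀ i, i + 3 ≤ d → a i - a (i + 3) = (β + 1) * (a (i + 1) - a (i + 2)))
    (hX : SX d P Q X) (j l : ℕ) (q : V) (hq : q ∈ LW d P Q j)
    (h0 : ∀ s, 2 * j + s ≤ d → d < l + j + s + 3 → sy A a c X j l s q = 0) :
    ∀ s, sy A a c X j l s q = 0 := by
  have hbig : ∀ s, d < 2 * j + s → sy A a c X j l s q = 0 := by
    intro s hs
    have h1 : aeval A (str a j s) q = 0 := by
      refine h.iA.eq_zero _ fun k hk => ?_
      rw [P_aeval h.iA k hk]
      by_cases hkj : k < j
      · rw [(mem_LW.mp hq).2.1 k hk hkj, smul_zero]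
      · by_cases hkj' : d - j < k
        · rw [LW_P hq k hk hkj', smul_zero]
        · rw [str_eval, Finset.prod_eq_zero (i := k - j) (Finset.mem_range.mpr (by omega)),
            zero_smul]
          rw [show j + (k - j) = k by omega, sub_self]
    unfold sy
    rw [h1, map_zero, map_zero]
  have key : ∀ t s, d + 1 ≤ 2 * j + s + t → sy A a c X j l s q = 0 := by
    intro t
    induction t using Nat.strong_induction_on with
    | _ t ih =>
    intro s hst
    by_cases hs : d < 2 * j + s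
    · exact hbig s hs
    · by_cases hs3 : d < l + j + s + 3
      · exact h0 s (by omega) hs3
      · have h1 := sy_rec h hc hrec hX j l s q hq (by omega)
        have i1 := ih (t - 1) (by omega) (s + 1) (by omega)
        have i2 := ih (t - 1) (by omega) (s + 2) (by omega)
        have i3 := ih (t - 1) (by omega) (s + 3) (by omega)
        rw [i1, i2, i3, smul_zero, sub_zero, add_zero, sub_zero] at h1
        exact h1
  intro s
  exact key (d + 1) s (by omega)

/-- If the symbol vanishes then `X` lowers the flag. -/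
theorem SL_of_sy (h : Sys A B d a P d b Q) (hc : Coord A d a P Q c) (hX : SX d P Q X)
    (h0 : ∀ j l s, 2 * j + s ≤ d → l + j + s ≤ d → ∀ q ∈ LW d P Q j,
      sy A a c X j l s q = 0) : SL d P Q X := by
  have hUL : UL d P Q X := by
    intro i hi v hv
    obtain ⟨q, hq, hqe⟩ := Sys.gen h i hi v hv
    refine ⟨?_, fun k hk hki => down_lemma h.iA hX.tri i v (mem_NN.mp hv).2 k hk hki⟩
    refine hc.F2 h i hi (X v) (Fl.mapX h hX (mem_NN.mp hv).1) fun l hl => ?_
    rw [hqe, map_sum, map_sum]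
    refine Finset.sum_eq_zero fun j hj => ?_
    rw [Finset.mem_filter, Finset.mem_range] at hj
    have h1 := h0 j l (i - j) (by omega) (by omega) (q j) (hq j)
    unfold sy at h1
    rwa [show j + (i - j) = i by omega] at h1
  exact ⟨fun i hi k hk hik v => Sys.UL_F h hUL i hi (Q i v) (fun l hl hil => by
    rw [h.iB.orth l hl i hi, if_neg (by omega)]) k hk hik, hX.tri⟩

/-! ### Symbols of the explicit terms -/

theorem cc_base (hc : Coord A d a P Q c) (h : Sys A B d a P d b Q) (l l' : ℕ) (r : V)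
    (hr : r ∈ LW d P Q l') (_hl : l + l' ≤ d) :
    (cc c l l' r : V) = if l = l' then r else 0 := by
  unfold cc
  by_cases hll : l ≤ l'
  · rw [if_pos hll]
    by_cases h2 : 2 * l' ≤ d
    · have h1 := hc.eq l (l' - l) l' 0 (by omega) r hr
      rw [str_zero, map_one, Module.End.one_apply] at h1
      rw [h1]
      by_cases hle : l = l'
      · rw [if_pos ⟨hle.symm, by omega⟩, if_pos hle]
      · rw [if_neg (by omega), if_neg hle]
    · have h3 := Sys.LW_big h l' (by omega) r hr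
      rw [h3, map_zero]
      split_ifs <;> rfl
  · rw [if_neg hll, if_neg (by omega)]
    rfl

theorem cc_lin (h : Sys A B d a P d b Q) (hc : Coord A d a P Q c) (l m : ℕ) (v : V)
    (hv : Fl d Q m v) (x : K) (hlm : l + m + 1 ≤ d) :
    cc c l (m + 1) (A v - x • v) = cc c l m v := by
  rw [map_sub, map_smul, hc.F3 h m v hv l hlm, hc.F1 h m (by omega) v hv l (m + 1) (by omega)
    (by omega), smul_zero, sub_zero]

theorem cc_str (h : Sys A B d a P d b Q) (hc : Coord A d a P Q c) (l m j : ℕ) (v : V)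
    (hv : Fl d Q m v) (s : ℕ) (hlm : l + m + s ≤ d) :
    cc c l (m + s) (aeval A (str a j s) v) = cc c l m v := by
  induction s with
  | zero => rw [str_zero, map_one]; rfl
  | succ s ih =>
    have h1 : aeval A (str a j (s + 1)) v = A (aeval A (str a j s) v) -
        a (j + s) • aeval A (str a j s) v := by
      rw [A_str]; abel
    rw [h1, ← add_assoc, cc_lin h hc l (m + s) _ (Fl.str h hv a j s) _ (by omega), ih (by omega)]

/-- `(A - a_l) (A - a_{d-l}) v` -/
noncomputable def quad (A : Module.End K V) (d : ℕ) (a : ℕ → K) (l : ℕ) : Module.End K V :=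
  (A - a l • LinearMap.id) ∘ₗ (A - a (d - l) • LinearMap.id)

theorem quad_apply (l : ℕ) (v : V) : quad A d a l v =
    A (A v - a (d - l) • v) - a l • (A v - a (d - l) • v) := rfl

theorem Fl.quad (h : Sys A B d a P d b Q) {i : ℕ} {v : V} (hv : Fl d Q i v) (l : ℕ) :
    Fl d Q (i + 2) (quad A d a l v) := by
  have h1 : Fl d Q (i + 1) (A v - a (d - l) • v) :=
    (Fl.mulA h hv).sub ((hv.mono (by omega)).smul _)
  rw [quad_apply]
  exact (Fl.mulA h h1).sub ((h1.mono (by omega)).smul _)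

theorem cc_quad (h : Sys A B d a P d b Q) (hc : Coord A d a P Q c) (l m j : ℕ) (v : V)
    (hv : Fl d Q m v) (hlm : l + m + 2 ≤ d) :
    cc c l (m + 2) (quad A d a j v) = cc c l m v := by
  have h1 : Fl d Q (m + 1) (A v - a (d - j) • v) :=
    (Fl.mulA h hv).sub ((hv.mono (by omega)).smul _)
  rw [quad_apply, cc_lin h hc l (m + 1) _ h1 _ (by omega), cc_lin h hc l m _ hv _ (by omega)]

theorem quad_mem (h : Sys A B d a P d b Q) (l : ℕ) (r : V) (hr : r ∈ LW d P Q l) :
    quad A d a l r ∈ MV d P Q (l + 1) := by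
  have hA : ∀ k ≤ d, ∀ u, P k (A u) = a k • P k u := fun k hk u => h.iA.comm k hk u
  have hP : ∀ k ≤ d, P k (quad A d a l r) = ((a k - a l) * (a k - a (d - l))) • P k r := by
    intro k hk
    rw [quad_apply]
    simp only [map_sub, map_smul, hA k hk]
    module
  rw [mem_MV]
  refine ⟨?_, fun k hk hkl => ?_, fun k hk hkl => ?_⟩
  · have := Fl.quad h (i := l) (v := r) (mem_LW.mp hr).1 l
    exact this
  · rw [hP k hk]
    by_cases hkl' : k = l
    · subst hkl'; rw [sub_self, zero_mul, zero_smul]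
    · rw [(mem_LW.mp hr).2.1 k hk (by omega), smul_zero]
  · rw [hP (d - k) (by omega)]
    by_cases hkl' : k = l
    · subst hkl'; rw [sub_self, mul_zero, zero_smul]
    · rw [(mem_LW.mp hr).2.2 k hk (by omega), smul_zero]

theorem A_mem (h : Sys A B d a P d b Q) (l : ℕ) (r : V) (hr : r ∈ LW d P Q l) :
    A r ∈ MV d P Q l := by
  have hA : ∀ k ≤ d, ∀ u, P k (A u) = a k • P k u := fun k hk u => h.iA.comm k hk u
  rw [mem_MV]
  refine ⟨Fl.mulA h (i := l) (mem_LW.mp hr).1, fun k hk hkl => ?_, fun k hk hkl => ?_⟩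
  · rw [hA k hk, (mem_LW.mp hr).2.1 k hk hkl, smul_zero]
  · rw [hA (d - k) (by omega), (mem_LW.mp hr).2.2 k hk hkl, smul_zero]

theorem LW_le_MV (l : ℕ) : LW d P Q l ≤ MV d P Q l := by
  intro r hr
  rw [mem_MV]
  exact ⟨fun k hk hkl => (mem_LW.mp hr).1 k hk (by omega), (mem_LW.mp hr).2.1,
    (mem_LW.mp hr).2.2⟩

theorem LW_succ_le_MV (l : ℕ) : LW d P Q (l + 1) ≤ MV d P Q l := by
  intro r hr
  rw [mem_MV]
  exact ⟨fun k hk hkl => (mem_LW.mp hr).1 k hk (by omega),
    fun k hk hkl => (mem_LW.mp hr).2.1 k hk (by omega),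
    fun k hk hkl => (mem_LW.mp hr).2.2 k hk (by omega)⟩

end Pool.Agent.H370.XT
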